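import Mathlib

/-!
# Growth and zeros of polynomials on boxes, large prime factors
-/

set_option autoImplicit false

namespace Pool.Agent.X23.BR

open Finset

theorem eval_growth {σ : Type*} (P : MvPolynomial σ ℤ) : ∃ c k : ℕ, ∀ H : ℕ, 1 ≤ H →
    ∀ z : σ → ℤ, (∀ i, |z i| ≤ H) → |MvPolynomial.eval z P| ≤ c * (H : ℤ) ^ k := by
  induction P using MvPolynomial.induction_on with
  | C a =>
    refine ⟨a.natAbs, 0, fun H _ z _ => ?_⟩
    simp
  | add p q hp hq =>
    obtain ⟨c, k, h1⟩ := hp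
    obtain ⟨c', k', h2⟩ := hq
    refine ⟨c + c', max k k', fun H hH z hz => ?_⟩
    rw [map_add]
    have hH' : (1 : ℤ) ≤ H := by exact_mod_cast hH
    calc _ ≤ |MvPolynomial.eval z p| + |MvPolynomial.eval z q| := abs_add_le _ _
      _ ≤ c * (H : ℤ) ^ k + c' * (H : ℤ) ^ k' := add_le_add (h1 H hH z hz) (h2 H hH z hz)
      _ ≤ c * (H : ℤ) ^ (max k k') + c' * (H : ℤ) ^ (max k k') := by
          gcongr
          · exact le_max_left _ _
          · exact le_max_right _ _
      _ = _ := by push_cast; ring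
  | mul_X p i hp =>
    obtain ⟨c, k, h1⟩ := hp
    refine ⟨c, k + 1, fun H hH z hz => ?_⟩
    rw [map_mul, MvPolynomial.eval_X, abs_mul]
    calc _ ≤ (c * (H : ℤ) ^ k) * H := by
          gcongr
          · exact h1 H hH z hz
          · exact hz i
      _ = _ := by ring

theorem card_zeros {σ : Type*} [Fintype σ] [DecidableEq σ] (P : MvPolynomial σ ℤ) (hP : P ≠ 0) :
    ∃ c : ℕ, ∀ S : Finset ℤ, #{z ∈ Fintype.piFinset (fun _ : σ => S) |
      MvPolynomial.eval z P = 0} * #S ≤ c * #S ^ Fintype.card σ := by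
  set e := Fintype.equivFin σ with he
  set P' : MvPolynomial (Fin (Fintype.card σ)) ℤ := MvPolynomial.rename e P with hP'
  have hP0 : P' ≠ 0 := by
    intro h
    exact hP ((MvPolynomial.rename_injective e e.injective) (by rw [← hP', h, map_zero]))
  refine ⟨P'.totalDegree, fun S => ?_⟩
  rcases S.eq_empty_or_nonempty with hS | hS
  · subst hS
    simp
  have hS0 : 0 < #S := Finset.card_pos.2 hS
  have h1 := MvPolynomial.schwartz_zippel_totalDegree hP0 S
  have h2 : #{z ∈ Fintype.piFinset (fun _ : σ => S) | MvPolynomial.eval z P = 0} ≤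
      #{f ∈ Fintype.piFinset (fun _ : Fin (Fintype.card σ) => S) | MvPolynomial.eval f P' = 0} := by
    apply Finset.card_le_card_of_injOn (fun z => z ∘ e.symm)
    · intro z hz
      rw [mem_coe, mem_filter, Fintype.mem_piFinset] at hz ⊢
      refine ⟨fun i => hz.1 _, ?_⟩
      rw [hP', MvPolynomial.eval_rename, Function.comp_assoc, Equiv.symm_comp_self,
        Function.comp_id]
      exact hz.2
    · intro z _ z' _ hzz
      funext i
      have := congrFun hzz (e i)
      simpa using this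
  have h3 : (0 : ℚ≥0) < (#S : ℚ≥0) ^ Fintype.card σ := by positivity
  have h4 : (0 : ℚ≥0) < (#S : ℚ≥0) := by positivity
  rw [div_le_div_iff₀ h3 h4] at h1
  have h5 : #{f ∈ Fintype.piFinset (fun _ : Fin (Fintype.card σ) => S) |
      MvPolynomial.eval f P' = 0} * #S ≤ P'.totalDegree * #S ^ Fintype.card σ := by
    exact_mod_cast h1
  exact (Nat.mul_le_mul_right _ h2).trans h5

theorem card_large_primes (D H k c : ℕ) (hD : D ≠ 0) (hc : c ≤ H) (hH : 1 ≤ H)
    (hDk : D ≤ c * H ^ k) : #{p ∈ D.primeFactors | H < p} ≤ k + 1 := by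
  by_contra hcon
  push Not at hcon
  have h1 : (H + 1) ^ #{p ∈ D.primeFactors | H < p} ≤ ∏ p ∈ D.primeFactors with H < p, p :=
    Finset.pow_card_le_prod _ _ _ fun p hp => (mem_filter.1 hp).2
  have h2 : ∏ p ∈ D.primeFactors with H < p, p ≤ D := by
    apply Nat.le_of_dvd (Nat.pos_of_ne_zero hD)
    exact (Finset.prod_dvd_prod_of_subset _ _ _ (Finset.filter_subset _ _)).trans
      (Nat.prod_primeFactors_dvd D)
  have h3 : D ≤ H ^ (k + 1) := by
    calc D ≤ c * H ^ k := hDk
      _ ≤ H * H ^ k := Nat.mul_le_mul_right _ hc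
      _ = H ^ (k + 1) := by ring
  have h4 : (H + 1) ^ (k + 1) ≤ (H + 1) ^ #{p ∈ D.primeFactors | H < p} :=
    Nat.pow_le_pow_right (by omega) hcon.le
  have h5 : H ^ (k + 1) < (H + 1) ^ (k + 1) := Nat.pow_lt_pow_left (by omega) (by omega)
  omega

end Pool.Agent.X23.BR
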