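import Pool.Agent.X23.BR.Good

/-!
# The number of good pairs over a finite field
-/

set_option autoImplicit false

namespace Pool.Agent.X23.BR

open Polynomial Matrix Finset

variable {K : Type*} [Field K]

/-- pairs with a full leading coefficient -/
def Om (K : Type*) [Field K] (m n : ℕ) : Set (K[X] × K[X]) :=
  {x | x.1.natDegree ≤ m ∧ x.2.natDegree ≤ n ∧ (x.1.coeff m ≠ 0 ∨ x.2.coeff n ≠ 0)}

/-- pairs with a common divisor of degree at least two -/
def Bd (K : Type*) [Field K] (m n : ℕ) : Set (K[X] × K[X]) :=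
  {x | x ∈ Om K m n ∧ ∃ h f₁ g₁, Dec x.1 x.2 h f₁ g₁ ∧ 2 ≤ h.natDegree}

theorem om_ne {m n : ℕ} {x : K[X] × K[X]} (hx : x ∈ Om K m n) : x.1 ≠ 0 ∨ x.2 ≠ 0 := by
  rcases hx.2.2 with h | h
  · left; rintro h0; rw [h0] at h; simp at h
  · right; rintro h0; rw [h0] at h; simp at h

theorem up_props (h' u : K[X]) (a b : K) (hm : h'.Monic) :
    (X ^ 2 * h' + C b * X + C a).Monic ∧
    (X ^ 2 * h' + C b * X + C a).natDegree = h'.natDegree + 2 := by
  have h1 : (X ^ 2 * h').Monic := (monic_X_pow 2).mul hm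
  have h2 : (X ^ 2 * h').natDegree = h'.natDegree + 2 := by
    rw [(monic_X_pow 2).natDegree_mul hm, natDegree_X_pow, add_comm]
  have h3 : (C b * X + C a : K[X]).natDegree ≤ 1 := natDegree_linear_le
  have h4 : (C b * X + C a : K[X]).degree < (X ^ 2 * h').degree := by
    rw [degree_eq_natDegree h1.ne_zero, h2]
    refine degree_le_natDegree.trans_lt ?_
    exact_mod_cast (by omega)
  rw [add_assoc]
  refine ⟨h1.add_of_left h4, ?_⟩
  rw [natDegree_add_eq_left_of_degree_lt h4, h2]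

theorem up_coeff {m : ℕ} {h' u : K[X]} (hm : h'.Monic) (a b : K) (hu : (h' * u).natDegree ≤ m) :
    ((X ^ 2 * h' + C b * X + C a) * u).natDegree ≤ m + 2 ∧
    ((X ^ 2 * h' + C b * X + C a) * u).coeff (m + 2) = (h' * u).coeff m := by
  by_cases hu0 : u = 0
  · subst hu0; simp
  have h1 := hu
  rw [natDegree_mul hm.ne_zero hu0] at h1
  have e : (X ^ 2 * h' + C b * X + C a) * u = h' * u * X ^ 2 + (C b * X + C a) * u := by ring
  have h3 : ((C b * X + C a : K[X]) * u).natDegree ≤ 1 + m :=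
    natDegree_mul_le.trans (add_le_add natDegree_linear_le (by omega))
  constructor
  · rw [natDegree_mul (up_props h' u a b hm).1.ne_zero hu0, (up_props h' u a b hm).2]
    omega
  · have h4 : ((C b * X + C a : K[X]) * u).coeff (m + 2) = 0 :=
      coeff_eq_zero_of_natDegree_lt (by omega)
    rw [e, coeff_add, coeff_mul_X_pow, h4, add_zero]

theorem down_coeff {m : ℕ} {h u : K[X]} (hm : h.Monic) (hd : 2 ≤ h.natDegree)
    (hu : (h * u).natDegree ≤ m + 2) :
    (h.divX.divX * u).natDegree ≤ m ∧ h.divX.divX.Monic ∧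
      X ^ 2 * h.divX.divX + C (h.coeff 1) * X + C (h.coeff 0) = h := by
  have h1 : h.divX.divX.natDegree = h.natDegree - 2 := by
    rw [natDegree_divX_eq_natDegree_tsub_one, natDegree_divX_eq_natDegree_tsub_one]
    omega
  have h2 : h.divX.divX.Monic := by
    rw [Monic, leadingCoeff, h1, coeff_divX, coeff_divX, show h.natDegree - 2 + 1 + 1 =
      h.natDegree by omega]
    exact hm
  refine ⟨?_, h2, ?_⟩
  · by_cases hu0 : u = 0
    · subst hu0; simp
    rw [natDegree_mul hm.ne_zero hu0] at hu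
    rw [natDegree_mul h2.ne_zero hu0]
    omega
  · have h3 := divX_mul_X_add h
    have h4 := divX_mul_X_add h.divX
    have h5 : h.divX.coeff 0 = h.coeff 1 := by rw [coeff_divX]
    rw [h5] at h4
    calc X ^ 2 * h.divX.divX + C (h.coeff 1) * X + C (h.coeff 0)
        = (h.divX.divX * X + C (h.coeff 1)) * X + C (h.coeff 0) := by ring
      _ = h := by rw [h4, h3]

theorem ncard_bd [Fintype K] (m n : ℕ) :
    (Bd K (m + 2) (n + 2)).ncard = Fintype.card K ^ 2 * (Om K m n).ncard := by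
  choose! h f₁ g₁ hd using exists_dec (K := K)
  set φ : K × K × (K[X] × K[X]) → K[X] × K[X] := fun y =>
    ((X ^ 2 * h y.2.2.1 y.2.2.2 + C y.2.1 * X + C y.1) * f₁ y.2.2.1 y.2.2.2,
      (X ^ 2 * h y.2.2.1 y.2.2.2 + C y.2.1 * X + C y.1) * g₁ y.2.2.1 y.2.2.2) with hφ
  have hdec : ∀ y : K × K × (K[X] × K[X]), y.2.2 ∈ Om K m n →
      Dec (φ y).1 (φ y).2 (X ^ 2 * h y.2.2.1 y.2.2.2 + C y.2.1 * X + C y.1)
        (f₁ y.2.2.1 y.2.2.2) (g₁ y.2.2.1 y.2.2.2) := by
    intro y hy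
    have h1 := hd y.2.2.1 y.2.2.2 (om_ne hy)
    exact ⟨(up_props _ 0 _ _ h1.1).1, h1.2.1, rfl, rfl⟩
  have himg : φ '' (Set.univ ×ˢ Set.univ ×ˢ Om K m n) = Bd K (m + 2) (n + 2) := by
    ext x
    constructor
    · rintro ⟨y, hy, rfl⟩
      have hy' : y.2.2 ∈ Om K m n := hy.2.2
      obtain ⟨h1, h2, h3, h4⟩ := hd y.2.2.1 y.2.2.2 (om_ne hy')
      obtain ⟨h5, h6⟩ := up_coeff (m := m) (u := f₁ y.2.2.1 y.2.2.2) h1 y.1 y.2.1
        (by rw [← h3]; exact hy'.1)
      obtain ⟨h7, h8⟩ := up_coeff (m := n) (u := g₁ y.2.2.1 y.2.2.2) h1 y.1 y.2.1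
        (by rw [← h4]; exact hy'.2.1)
      refine ⟨⟨h5, h7, ?_⟩, _, _, _, hdec y hy', ?_⟩
      · change ((X ^ 2 * h y.2.2.1 y.2.2.2 + C y.2.1 * X + C y.1) * f₁ y.2.2.1 y.2.2.2).coeff
          (m + 2) ≠ 0 ∨ ((X ^ 2 * h y.2.2.1 y.2.2.2 + C y.2.1 * X + C y.1) *
          g₁ y.2.2.1 y.2.2.2).coeff (n + 2) ≠ 0
        rw [h6, h8, ← h3, ← h4]
        exact hy'.2.2
      · rw [(up_props _ 0 _ _ h1).2]
        omega
    · rintro ⟨hx, h', f', g', ⟨h1, h2, h3, h4⟩, h5⟩
      obtain ⟨h6, h7, h8⟩ := down_coeff (m := m) (u := f') h1 h5 (by rw [← h3]; exact hx.1)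
      obtain ⟨h9, -, -⟩ := down_coeff (m := n) (u := g') h1 h5 (by rw [← h4]; exact hx.2.1)
      have hD : Dec (h'.divX.divX * f') (h'.divX.divX * g') h'.divX.divX f' g' :=
        ⟨h7, h2, rfl, rfl⟩
      have hy' : (h'.divX.divX * f', h'.divX.divX * g') ∈ Om K m n := by
        refine ⟨h6, h9, ?_⟩
        have e1 := (up_coeff (m := m) (u := f') h7 (h'.coeff 0) (h'.coeff 1) h6).2
        have e2 := (up_coeff (m := n) (u := g') h7 (h'.coeff 0) (h'.coeff 1) h9).2
        rw [h8, ← h3] at e1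
        rw [h8, ← h4] at e2
        change (h'.divX.divX * f').coeff m ≠ 0 ∨ (h'.divX.divX * g').coeff n ≠ 0
        rw [← e1, ← e2]
        exact hx.2.2
      refine ⟨(h'.coeff 0, h'.coeff 1, (h'.divX.divX * f', h'.divX.divX * g')),
        ⟨trivial, trivial, hy'⟩, ?_⟩
      obtain ⟨e1, e2, e3⟩ := (hd _ _ (om_ne hy')).unique hD
      simp only [hφ]
      rw [e1, e2, e3, h8, ← h3, ← h4]
  have hinj : Set.InjOn φ (Set.univ ×ˢ Set.univ ×ˢ Om K m n) := by
    rintro ⟨a, b, x⟩ hx ⟨a', b', x'⟩ hx' heq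
    have hx1 : x ∈ Om K m n := hx.2.2
    have hx1' : x' ∈ Om K m n := hx'.2.2
    have h1 := hdec (a, b, x) hx1
    have h2 := hdec (a', b', x') hx1'
    rw [heq] at h1
    obtain ⟨e1, e2, e3⟩ := h1.unique h2
    simp only at e1 e2 e3
    have ea : a = a' := by
      have := congrArg (fun r : K[X] => r.coeff 0) e1
      simpa [pow_two, mul_assoc] using this
    have eb : b = b' := by
      have := congrArg (fun r : K[X] => r.coeff 1) e1
      simpa [pow_two, mul_assoc, coeff_C] using this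
    subst ea eb
    have eh : h x.1 x.2 = h x'.1 x'.2 := by
      have e4 : (X : K[X]) ^ 2 * h x.1 x.2 = X ^ 2 * h x'.1 x'.2 := by
        linear_combination e1
      exact mul_left_cancel₀ (pow_ne_zero 2 X_ne_zero) e4
    have d1 := hd _ _ (om_ne hx1)
    have d2 := hd _ _ (om_ne hx1')
    have e5 : x.1 = x'.1 := by rw [d1.2.2.1, d2.2.2.1, eh, e2]
    have e6 : x.2 = x'.2 := by rw [d1.2.2.2, d2.2.2.2, eh, e3]
    rw [Prod.ext e5 e6]
  rw [← himg, Set.ncard_image_of_injOn hinj, Set.ncard_prod, Set.ncard_prod, Set.ncard_univ,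
    Nat.card_eq_fintype_card]
  ring

theorem ncard_degreeLT [Fintype K] (k : ℕ) :
    ({f : K[X] | f.degree < (k : WithBot ℕ)} : Set K[X]).ncard = Fintype.card K ^ k := by
  have h1 : ({f : K[X] | f.degree < (k : WithBot ℕ)} : Set K[X]) = (degreeLT K k : Set K[X]) := by
    ext f
    simp [mem_degreeLT]
  rw [h1, ← Nat.card_coe_set_eq]
  have h2 := Nat.card_congr (degreeLTEquiv K k).toEquiv
  rw [Nat.card_eq_fintype_card (α := Fin k → K), Fintype.card_fun, Fintype.card_fin] at h2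
  exact h2

theorem finite_degreeLT [Finite K] (k : ℕ) :
    ({f : K[X] | f.degree < (k : WithBot ℕ)} : Set K[X]).Finite := by
  have h1 : ({f : K[X] | f.degree < (k : WithBot ℕ)} : Set K[X]) = (degreeLT K k : Set K[X]) := by
    ext f
    simp [mem_degreeLT]
  rw [h1]
  exact Set.finite_coe_iff.1 (Finite.of_equiv _ (degreeLTEquiv K k).toEquiv.symm)

theorem degree_lt_succ_iff (f : K[X]) (k : ℕ) :
    f.degree < ((k + 1 : ℕ) : WithBot ℕ) ↔ f.natDegree ≤ k := by
  constructor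
  · intro h
    by_cases h0 : f = 0
    · rw [h0]; simp
    · rw [degree_eq_natDegree h0] at h
      have : f.natDegree < k + 1 := by exact_mod_cast h
      omega
  · intro h
    exact (degree_le_of_natDegree_le h).trans_lt (by exact_mod_cast Nat.lt_succ_self k)

theorem om_eq (m n : ℕ) : Om K m n =
    ({f : K[X] | f.degree < ((m + 1 : ℕ) : WithBot ℕ)} ×ˢ
      {g : K[X] | g.degree < ((n + 1 : ℕ) : WithBot ℕ)}) \
    ({f : K[X] | f.degree < (m : WithBot ℕ)} ×ˢ {g : K[X] | g.degree < (n : WithBot ℕ)}) := by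
  have key : ∀ (f : K[X]) (k : ℕ), f.natDegree ≤ k →
      (f.degree < (k : WithBot ℕ) ↔ f.coeff k = 0) := by
    intro f k hk
    constructor
    · exact coeff_eq_zero_of_degree_lt
    · intro h
      by_cases h0 : f = 0
      · rw [h0, degree_zero]; exact WithBot.bot_lt_coe _
      · rw [degree_eq_natDegree h0]
        have : f.natDegree ≠ k := by
          rintro rfl
          exact h0 (leadingCoeff_eq_zero.1 h)
        exact_mod_cast lt_of_le_of_ne hk this
  ext ⟨f, g⟩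
  simp only [Om, Set.mem_setOf_eq, Set.mem_diff, Set.mem_prod]
  rw [degree_lt_succ_iff, degree_lt_succ_iff]
  constructor
  · rintro ⟨h1, h2, h3⟩
    refine ⟨⟨h1, h2⟩, ?_⟩
    rw [key f m h1, key g n h2]
    tauto
  · rintro ⟨⟨h1, h2⟩, h3⟩
    rw [key f m h1, key g n h2] at h3
    exact ⟨h1, h2, by tauto⟩

theorem om_finite [Finite K] (m n : ℕ) : (Om K m n).Finite := by
  rw [om_eq]
  exact ((finite_degreeLT _).prod (finite_degreeLT _)).diff

theorem ncard_om [Fintype K] (m n : ℕ) :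
    (Om K m n).ncard + Fintype.card K ^ (m + n) = Fintype.card K ^ (m + n + 2) := by
  have hsub : ({f : K[X] | f.degree < (m : WithBot ℕ)} ×ˢ {g : K[X] | g.degree < (n : WithBot ℕ)}) ⊆
      ({f : K[X] | f.degree < ((m + 1 : ℕ) : WithBot ℕ)} ×ˢ
      {g : K[X] | g.degree < ((n + 1 : ℕ) : WithBot ℕ)}) := by
    have key : ∀ k : ℕ, (k : WithBot ℕ) < ((k + 1 : ℕ) : WithBot ℕ) := by
      intro k
      exact_mod_cast Nat.lt_succ_self k
    rintro ⟨f, g⟩ ⟨h1, h2⟩
    exact ⟨lt_trans h1 (key m), lt_trans h2 (key n)⟩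
  have h1 := Set.ncard_diff_add_ncard_of_subset hsub
    ((finite_degreeLT _).prod (finite_degreeLT _))
  rw [← om_eq, Set.ncard_prod, Set.ncard_prod, ncard_degreeLT, ncard_degreeLT, ncard_degreeLT,
    ncard_degreeLT] at h1
  rw [← pow_add, ← pow_add] at h1
  rw [h1]
  congr 1
  ring

/-- The good pairs. -/
def Gs (K : Type*) [Field K] (m n : ℕ) : Set (K[X] × K[X]) :=
  {x | x.1.natDegree ≤ m ∧ x.2.natDegree ≤ n ∧ Good x.1 x.2 m n}

theorem gs_eq (m n : ℕ) : Gs K m n = Om K m n \ Bd K m n := by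
  ext x
  constructor
  · rintro ⟨h1, h2, h3, h, f₁, g₁, h4, h5⟩
    refine ⟨⟨h1, h2, h3⟩, ?_⟩
    rintro ⟨_, h', f', g', h6, h7⟩
    obtain ⟨e, -, -⟩ := h4.unique h6
    rw [e] at h5
    omega
  · rintro ⟨h1, h2⟩
    obtain ⟨h, f₁, g₁, hd⟩ := exists_dec x.1 x.2 (om_ne h1)
    refine ⟨h1.1, h1.2.1, h1.2.2, h, f₁, g₁, hd, ?_⟩
    by_contra h3
    exact h2 ⟨h1, h, f₁, g₁, hd, by omega⟩

theorem ncard_gs [Fintype K] (m n : ℕ) (hm : 2 ≤ m) (hn : 2 ≤ n) :
    (Gs K m n).ncard + 2 * Fintype.card K ^ (m + n) =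
      Fintype.card K ^ (m + n + 2) + Fintype.card K ^ (m + n - 2) := by
  obtain ⟨m, rfl⟩ := Nat.exists_eq_add_of_le' hm
  obtain ⟨n, rfl⟩ := Nat.exists_eq_add_of_le' hn
  have h1 := ncard_om (K := K) (m + 2) (n + 2)
  have h2 := ncard_om (K := K) m n
  have h3 := ncard_bd (K := K) m n
  have h4 := Set.ncard_diff_add_ncard_of_subset (s := Bd K (m + 2) (n + 2)) (t := Om K (m + 2) (n + 2))
    (fun x hx => hx.1) (om_finite _ _)
  rw [← gs_eq, h3] at h4
  have e1 : m + 2 + (n + 2) = m + n + 4 := by ring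
  rw [e1] at h1 ⊢
  rw [show m + n + 4 - 2 = m + n + 2 by omega]
  have h5 : Fintype.card K ^ 2 * (Om K m n).ncard + Fintype.card K ^ (m + n + 2) =
      Fintype.card K ^ (m + n + 4) := by
    have := congrArg (fun t => Fintype.card K ^ 2 * t) h2
    simp only [mul_add] at this
    rw [← pow_add, ← pow_add] at this
    rw [show 2 + (m + n) = m + n + 2 by ring, show 2 + (m + n + 2) = m + n + 4 by ring] at this
    exact this
  omega

end Pool.Agent.X23.BR
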