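import Pool.Agent.X23.BR.Vec

/-!
# The eliminant
-/

set_option autoImplicit false

namespace Pool.Agent.X23.BR

open Polynomial Matrix Finset

theorem natDegree_det_le {S : Type*} [CommRing S] {ι : Type*} [Fintype ι] [DecidableEq ι]
    (M : Matrix ι ι S[X]) (d : ι → ℕ) (hd : ∀ i j, (M i j).natDegree ≤ d j) :
    M.det.natDegree ≤ ∑ j, d j := by
  rw [det_apply']
  refine natDegree_sum_le_of_forall_le _ _ fun σ _ => ?_
  refine natDegree_mul_le.trans ?_
  rw [natDegree_intCast, zero_add]
  refine (natDegree_prod_le _ _).trans ?_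
  exact Finset.sum_le_sum fun j _ => hd _ j

section ring

variable {S : Type*} [CommRing S] {m n : ℕ}

/-- the vector with `b₀` replaced by a variable -/
noncomputable def zT (z : Idx m n → S) : Idx m n → S[X] :=
  Function.update (fun i => C (z i)) (Sum.inr 0) X

theorem zT_map {S' : Type*} [CommRing S'] (φ : S →+* S') (z : Idx m n → S) :
    (fun i => (mapRingHom φ) (zT z i)) = zT (fun i => φ (z i)) := by
  funext i
  unfold zT
  by_cases hi : i = Sum.inr 0
  · subst hi; simp
  · simp [Function.update_of_ne hi]

theorem zT_eval (z : Idx m n → S) (t : S) :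
    (fun i => (evalRingHom t) (zT z i)) = Function.update z (Sum.inr 0) t := by
  funext i
  unfold zT
  by_cases hi : i = Sum.inr 0
  · subst hi; simp
  · simp [Function.update_of_ne hi]

theorem zT_update (z : Idx m n → S) (t : S) : zT (Function.update z (Sum.inr 0) t) = zT z := by
  funext i
  unfold zT
  by_cases hi : i = Sum.inr 0
  · subst hi; simp
  · simp [Function.update_of_ne hi]

/-- the resultant as a polynomial in `b₀` -/
noncomputable def AA (z : Idx m n → S) : S[X] := rs (zT z)

/-- the top component as a polynomial in `b₀` -/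
noncomputable def VV (h : 0 < m + n) (j : Fin (m + n)) (z : Idx m n → S) : S[X] := wv h (zT z) j

theorem AA_map {S' : Type*} [CommRing S'] (φ : S →+* S') (z : Idx m n → S) :
    AA (fun i => φ (z i)) = (AA z).map φ := by
  unfold AA
  rw [← zT_map, rs_map]
  rfl

theorem VV_map {S' : Type*} [CommRing S'] (φ : S →+* S') (h : 0 < m + n) (j : Fin (m + n))
    (z : Idx m n → S) : VV h j (fun i => φ (z i)) = (VV h j z).map φ := by
  unfold VV
  rw [← zT_map, wv_map]
  rfl

theorem eval_AA (z : Idx m n → S) (t : S) :
    (AA z).eval t = rs (Function.update z (Sum.inr 0) t) := by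
  unfold AA
  rw [← zT_eval, rs_map]
  rfl

theorem eval_VV (h : 0 < m + n) (j : Fin (m + n)) (z : Idx m n → S) (t : S) :
    (VV h j z).eval t = wv h (Function.update z (Sum.inr 0) t) j := by
  unfold VV
  rw [← zT_eval, wv_map]
  rfl

theorem natDegree_AA (z : Idx m n → S) : (AA z).natDegree ≤ m := by
  have hF : ∀ i, ((FF (zT z)).coeff i).natDegree ≤ 0 := by
    intro i
    by_cases hi : i < m + 1
    · have := coeff_poly m (fun i => zT z (Sum.inl i)) ⟨i, hi⟩
      simp only at this
      unfold FF
      rw [this]
      unfold zT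
      rw [Function.update_of_ne (by simp)]
      simp
    · rw [coeff_eq_zero_of_natDegree_lt]
      · simp
      · exact (natDegree_FF _).trans_lt (by omega)
  have hG : ∀ i, ((GG (zT z)).coeff i).natDegree ≤ 1 := by
    intro i
    by_cases hi : i < n + 1
    · have := coeff_poly n (fun i => zT z (Sum.inr i)) ⟨i, hi⟩
      simp only at this
      unfold GG
      rw [this]
      unfold zT
      by_cases h0 : (Sum.inr ⟨i, hi⟩ : Idx m n) = Sum.inr 0
      · rw [h0, Function.update_self]
        exact natDegree_X_le
      · rw [Function.update_of_ne h0]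
        simp
    · rw [coeff_eq_zero_of_natDegree_lt]
      · simp
      · exact (natDegree_GG _).trans_lt (by omega)
  unfold AA rs resultant
  refine (natDegree_det_le _ (Fin.addCases (fun _ => 1) (fun _ => 0)) ?_).trans ?_
  · intro i j
    induction j using Fin.addCases with
    | left a =>
      simp only [sylvester, of_apply, Fin.addCases_left]
      split_ifs
      · exact hG _
      · simp
    | right a =>
      simp only [sylvester, of_apply, Fin.addCases_right]
      split_ifs
      · exact hF _
      · simp
  · rw [Fin.sum_univ_add]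
    simp

/-- the eliminant -/
noncomputable def DD (h : 0 < m + n) (j : Fin (m + n)) (d : ℕ) (z : Idx m n → S) : S :=
  resultant (AA z) (VV h j z) m d

theorem DD_map {S' : Type*} [CommRing S'] (φ : S →+* S') (h : 0 < m + n) (j : Fin (m + n))
    (d : ℕ) (z : Idx m n → S) : DD h j d (fun i => φ (z i)) = φ (DD h j d z) := by
  unfold DD
  rw [AA_map, VV_map, resultant_map_map]

theorem DD_update (h : 0 < m + n) (j : Fin (m + n)) (d : ℕ) (z : Idx m n → S) (t : S) :
    DD h j d (Function.update z (Sum.inr 0) t) = DD h j d z := by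
  unfold DD AA VV
  rw [zT_update]

end ring

/-- the generic vector -/
noncomputable def gen (m n : ℕ) : Idx m n → MvPolynomial (Idx m n) ℤ := fun i => MvPolynomial.X i

theorem natDegree_VV_le {S : Type*} [CommRing S] {m n : ℕ} (h : 0 < m + n) (j : Fin (m + n))
    (z : Idx m n → S) : (VV h j z).natDegree ≤ (VV h j (gen m n)).natDegree := by
  have h1 : z = fun i => (MvPolynomial.eval₂Hom (Int.castRingHom S) z) (gen m n i) := by
    funext i
    simp [gen]
  rw [h1, VV_map]
  exact natDegree_map_le

/-- the degree of the top component in `b₀` -/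
noncomputable def dV {m n : ℕ} (h : 0 < m + n) (j : Fin (m + n)) : ℕ :=
  (VV h j (gen m n)).natDegree

theorem dvd_DD {m n : ℕ} (h : 0 < m + n) (hm : 0 < m) (j : Fin (m + n)) (z : Idx m n → ℤ) (p : ℤ)
    (h1 : p ∣ rs z) (h2 : p ∣ wv h z j) : p ∣ DD h j (dV h j) z := by
  have hb := bezout_vv (AA z) (VV h j z) (natDegree_AA z) (natDegree_VV_le h j z)
    (by omega : 0 < m + dV h j)
  have h3 := congrArg (eval (z (Sum.inr 0))) hb
  rw [eval_add, eval_mul, eval_mul, eval_AA, eval_VV, Function.update_eq_self, eval_C] at h3
  unfold DD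
  change p ∣ resultant (AA z) (VV h j z) m (dV h j)
  change _ = resultant (AA z) (VV h j z) m (dV h j) at h3
  rw [← h3]
  exact dvd_add (h1.mul_right _) (h2.mul_right _)

end Pool.Agent.X23.BR
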