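import Pool.Agent.X23.BR.LA

/-!
# The criterion with the greatest common divisor
-/

set_option autoImplicit false

namespace Pool.Agent.X23.BR

open Polynomial Matrix Finset

variable {K : Type*} [Field K]

/-- a decomposition `f = h f₁`, `g = h g₁` with `h` monic and `f₁, g₁` coprime -/
def Dec (f g h f₁ g₁ : K[X]) : Prop :=
  h.Monic ∧ IsCoprime f₁ g₁ ∧ f = h * f₁ ∧ g = h * g₁

theorem exists_dec (f g : K[X]) (h0 : f ≠ 0 ∨ g ≠ 0) : ∃ h f₁ g₁, Dec f g h f₁ g₁ := by
  classical
  set d := EuclideanDomain.gcd f g with hd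
  have hd0 : d ≠ 0 := by
    intro h
    rw [hd, EuclideanDomain.gcd_eq_zero_iff] at h
    rcases h0 with h0 | h0
    · exact h0 h.1
    · exact h0 h.2
  obtain ⟨a, ha⟩ := EuclideanDomain.gcd_dvd_left f g
  obtain ⟨b, hb⟩ := EuclideanDomain.gcd_dvd_right f g
  rw [← hd] at ha hb
  have hl : d.leadingCoeff ≠ 0 := leadingCoeff_ne_zero.2 hd0
  refine ⟨d * C d.leadingCoeff⁻¹, C d.leadingCoeff * a, C d.leadingCoeff * b,
    monic_mul_leadingCoeff_inv hd0, ?_, ?_, ?_⟩
  · have h1 := EuclideanDomain.gcd_eq_gcd_ab f g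
    rw [← hd] at h1
    have h2 : d * (a * EuclideanDomain.gcdA f g + b * EuclideanDomain.gcdB f g) = d * 1 := by
      have h3 : f * EuclideanDomain.gcdA f g = d * (a * EuclideanDomain.gcdA f g) := by
        rw [← mul_assoc, ← ha]
      have h4 : g * EuclideanDomain.gcdB f g = d * (b * EuclideanDomain.gcdB f g) := by
        rw [← mul_assoc, ← hb]
      rw [mul_add, ← h3, ← h4, ← h1, mul_one]
    have h3 := mul_left_cancel₀ hd0 h2
    refine ⟨C d.leadingCoeff⁻¹ * EuclideanDomain.gcdA f g,
      C d.leadingCoeff⁻¹ * EuclideanDomain.gcdB f g, ?_⟩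
    have h4 : (C d.leadingCoeff⁻¹ : K[X]) * C d.leadingCoeff = 1 := by
      rw [← C_mul, inv_mul_cancel₀ hl, C_1]
    calc _ = (C d.leadingCoeff⁻¹ * C d.leadingCoeff) *
          (a * EuclideanDomain.gcdA f g + b * EuclideanDomain.gcdB f g) := by ring
      _ = 1 := by rw [h3, h4, one_mul]
  · rw [mul_assoc, ← mul_assoc (C _) (C _) a, ← C_mul, inv_mul_cancel₀ hl, C_1, one_mul]
    exact ha
  · rw [mul_assoc, ← mul_assoc (C _) (C _) b, ← C_mul, inv_mul_cancel₀ hl, C_1, one_mul]
    exact hb

/-- The decomposition is unique. -/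
theorem Dec.unique {f g h f₁ g₁ h' f₁' g₁' : K[X]} (hd : Dec f g h f₁ g₁)
    (hd' : Dec f g h' f₁' g₁') : h = h' ∧ f₁ = f₁' ∧ g₁ = g₁' := by
  have key : ∀ {h f₁ g₁ h' f₁' g₁' : K[X]}, Dec f g h f₁ g₁ → Dec f g h' f₁' g₁' → h' ∣ h := by
    intro h f₁ g₁ h' f₁' g₁' ⟨_, ⟨u, w, huw⟩, h1, h2⟩ ⟨_, _, h3, h4⟩
    have : h = f * u + g * w := by
      rw [h1, h2]
      linear_combination (-h) * huw
    rw [this]
    exact dvd_add ((Dvd.intro _ h3.symm).mul_right _) ((Dvd.intro _ h4.symm).mul_right _)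
  have h1 := key hd hd'
  have h2 := key hd' hd
  have h3 : h = h' := eq_of_monic_of_associated hd.1 hd'.1 (associated_of_dvd_dvd h2 h1)
  subst h3
  have h0 : h ≠ 0 := hd.1.ne_zero
  exact ⟨rfl, mul_left_cancel₀ h0 (hd.2.2.1.symm.trans hd'.2.2.1),
    mul_left_cancel₀ h0 (hd.2.2.2.symm.trans hd'.2.2.2)⟩

/-- the good pairs -/
def Good (f g : K[X]) (m n : ℕ) : Prop :=
  (f.coeff m ≠ 0 ∨ g.coeff n ≠ 0) ∧ ∃ h f₁ g₁, Dec f g h f₁ g₁ ∧ h.natDegree ≤ 1

theorem const_of_coeff {m n : ℕ} {f g : K[X]} (hf : f.natDegree ≤ m) (hg : g.natDegree ≤ n)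
    (h : 0 < m + n) (x : Fin (m + n) → K)
    (hx : ∀ i : Fin (m + n), (i : ℕ) ≠ 0 → (f * qX x + g * pX x).coeff i = 0) :
    ∃ c, f * qX x + g * pX x = C c := by
  refine ⟨(f * qX x + g * pX x).coeff 0, ?_⟩
  ext i
  by_cases h0 : i = 0
  · subst h0; simp
  rw [coeff_C, if_neg h0]
  by_cases hi : i < m + n
  · exact hx ⟨i, hi⟩ h0
  · have key : ∀ (u w : K[X]) (k l : ℕ), u.natDegree ≤ k → w.degree < (l : WithBot ℕ) →
        k + l ≤ i → (u * w).coeff i = 0 := by
      intro u w k l hu hw hkl
      by_cases hw0 : w = 0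
      · rw [hw0]; simp
      · apply coeff_eq_zero_of_natDegree_lt
        have h3 : w.natDegree < l := by
          rw [degree_eq_natDegree hw0] at hw
          exact_mod_cast hw
        exact natDegree_mul_le.trans_lt (by omega)
    rw [coeff_add, key f _ m n hf (degree_qX x) (by omega),
      key g _ n m hg (degree_pX x) (by omega), add_zero]

/-- the case of a common divisor of degree one -/
theorem core_one {m : ℕ} {h f₁ g₁ p q : K[X]} (hh : h.natDegree = 1) (hm : h.Monic)
    (hc : IsCoprime f₁ g₁) (hf : (h * f₁).coeff m ≠ 0) (hfm : (h * f₁).natDegree ≤ m)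
    (hp : p.degree < (m : WithBot ℕ)) (hp1 : p.coeff (m - 1) = 0) (c : K)
    (he : h * f₁ * q + h * g₁ * p = C c) : p = 0 ∧ q = 0 := by
  have hf1 : f₁ ≠ 0 := by
    rintro rfl
    simp at hf
  have hdeg : (h * f₁).natDegree = m := le_antisymm hfm (le_natDegree_of_ne_zero hf)
  rw [natDegree_mul hm.ne_zero hf1, hh] at hdeg
  have hc0 : c = 0 := by
    by_contra hc0
    have h1 : h ∣ C c := ⟨f₁ * q + g₁ * p, by rw [← he]; ring⟩
    have h2 := natDegree_le_of_dvd h1 (by simpa using hc0)
    rw [hh, natDegree_C] at h2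
    omega
  rw [hc0, C_0] at he
  have h1 : f₁ * q + g₁ * p = 0 := by
    apply mul_left_cancel₀ hm.ne_zero
    rw [mul_zero, ← he]
    ring
  have h2 : f₁ ∣ p := by
    apply hc.dvd_of_dvd_mul_left
    exact ⟨-q, by linear_combination h1⟩
  have hp0 : p = 0 := by
    by_contra hp0
    have h3 := natDegree_le_of_dvd h2 hp0
    have h4 : p.natDegree < m := by
      rw [degree_eq_natDegree hp0] at hp
      exact_mod_cast hp
    have h5 : p.natDegree = m - 1 := by omega
    apply hp0
    rw [← leadingCoeff_eq_zero, leadingCoeff, h5, hp1]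
  refine ⟨hp0, ?_⟩
  rw [hp0, mul_zero, add_zero] at h1
  exact (mul_eq_zero.1 h1).resolve_left hf1

theorem vv_top_ne_zero {m n : ℕ} {f g h₀ f₁ g₁ : K[X]} (hf : f.natDegree ≤ m)
    (hg : g.natDegree ≤ n) (h : 0 < m + n) (hm : 0 < m) (hfm : f.coeff m ≠ 0)
    (hd : Dec f g h₀ f₁ g₁) (hh : h₀.natDegree = 1) :
    vv f g m n h (Fin.castAdd n ⟨m - 1, by omega⟩) ≠ 0 := by
  rw [vv_ne_zero_iff f g hf hg]
  intro x hx hk
  obtain ⟨c, hc⟩ := const_of_coeff hf hg h x hk
  obtain ⟨h1, h2, h3, h4⟩ := hd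
  rw [h3, h4] at hc
  obtain ⟨h5, h6⟩ := core_one hh h1 h2 (by rw [← h3]; exact hfm) (by rw [← h3]; exact hf)
    (degree_pX x) (by rw [← hx]; exact coeff_pX x ⟨m - 1, by omega⟩) c hc
  exact eq_zero_of_pX_qX x h5 h6

theorem vv_top_ne_zero' {m n : ℕ} {f g h₀ f₁ g₁ : K[X]} (hf : f.natDegree ≤ m)
    (hg : g.natDegree ≤ n) (h : 0 < m + n) (hn : 0 < n) (hgn : g.coeff n ≠ 0)
    (hd : Dec f g h₀ f₁ g₁) (hh : h₀.natDegree = 1) :
    vv f g m n h (Fin.natAdd m ⟨n - 1, by omega⟩) ≠ 0 := by
  rw [vv_ne_zero_iff f g hf hg]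
  intro x hx hk
  obtain ⟨c, hc⟩ := const_of_coeff hf hg h x hk
  obtain ⟨h1, h2, h3, h4⟩ := hd
  rw [h3, h4, add_comm] at hc
  obtain ⟨h5, h6⟩ := core_one hh h1 h2.symm (by rw [← h4]; exact hgn) (by rw [← h4]; exact hg)
    (degree_qX x) (by rw [← hx]; exact coeff_qX x ⟨n - 1, by omega⟩) c hc
  exact eq_zero_of_pX_qX x h6 h5

theorem core_zero {m n : ℕ} {f g : K[X]} (hc : IsCoprime f g) (hfm : f.coeff m ≠ 0)
    (hf : f.natDegree ≤ m) {p q : K[X]} (hp : p.degree < (m : WithBot ℕ))
    (he : f * q + g * p = 0) : p = 0 ∧ q = 0 := by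
  have hf0 : f ≠ 0 := by rintro rfl; simp at hfm
  have hdeg : f.natDegree = m := le_antisymm hf (le_natDegree_of_ne_zero hfm)
  have h2 : f ∣ p := by
    apply hc.dvd_of_dvd_mul_left
    exact ⟨-q, by linear_combination he⟩
  have hp0 : p = 0 := by
    by_contra hp0
    have h3 := natDegree_le_of_dvd h2 hp0
    have h4 : p.natDegree < m := by
      rw [degree_eq_natDegree hp0] at hp
      exact_mod_cast hp
    omega
  refine ⟨hp0, ?_⟩
  rw [hp0, mul_zero, add_zero] at he
  exact (mul_eq_zero.1 he).resolve_left hf0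

/-- The resultant with nominal degrees does not vanish for coprime polynomials, one of which has
the full degree. -/
theorem res_ne_zero {m n : ℕ} {f g : K[X]} (hf : f.natDegree ≤ m) (hg : g.natDegree ≤ n)
    (hl : f.coeff m ≠ 0 ∨ g.coeff n ≠ 0) (hc : IsCoprime f g) : resultant f g m n ≠ 0 := by
  unfold resultant
  rw [Ne, ← exists_mulVec_eq_zero_iff]
  rintro ⟨x, hx0, hx⟩
  apply hx0
  have h1 : f * qX x + g * pX x = 0 := by
    ext i
    by_cases hi : i < m + n
    · have := mulVec_sylvester f g hf hg x ⟨i, hi⟩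
      simp only at this
      rw [← this, hx]
      simp
    · have key : ∀ (u w : K[X]) (k l : ℕ), u.natDegree ≤ k → w.degree < (l : WithBot ℕ) →
          k + l ≤ i → (u * w).coeff i = 0 := by
        intro u w k l hu hw hkl
        by_cases hw0 : w = 0
        · rw [hw0]; simp
        · apply coeff_eq_zero_of_natDegree_lt
          have h3 : w.natDegree < l := by
            rw [degree_eq_natDegree hw0] at hw
            exact_mod_cast hw
          exact natDegree_mul_le.trans_lt (by omega)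
      rw [coeff_add, key f _ m n hf (degree_qX x) (by omega),
        key g _ n m hg (degree_pX x) (by omega), add_zero, coeff_zero]
  rcases hl with hl | hl
  · obtain ⟨h5, h6⟩ := core_zero (n := n) hc hl hf (degree_pX x) h1
    exact eq_zero_of_pX_qX x h5 h6
  · rw [add_comm] at h1
    obtain ⟨h5, h6⟩ := core_zero (n := n) hc.symm hl hg (degree_qX x) h1
    exact eq_zero_of_pX_qX x h6 h5

theorem good_iff {m n : ℕ} {f g : K[X]} (hm : 0 < m) (hn : 0 < n) (hf : f.natDegree ≤ m)
    (hg : g.natDegree ≤ n) (h : 0 < m + n) :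
    (∃ j, vv f g m n h j ≠ 0) ↔ Good f g m n := by
  constructor
  · rintro ⟨j, hj⟩
    have hl : f.coeff m ≠ 0 ∨ g.coeff n ≠ 0 := by
      by_contra hcon
      push Not at hcon
      obtain ⟨h1, h2⟩ := hcon
      apply hj
      unfold vv
      rw [adjugate_apply]
      apply det_eq_zero_of_row_eq_zero (⟨m + n - 1, by omega⟩ : Fin (m + n))
      intro k
      rw [updateRow_ne (by intro h3; have := congrArg Fin.val h3; simp only at this; omega)]
      induction k using Fin.addCases with
      | left a =>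
        simp only [sylvester, of_apply, Fin.addCases_left]
        split_ifs with h3
        · rw [Set.mem_Icc] at h3
          obtain h5 | h4 := eq_or_ne (m + n - 1 - (a : ℕ)) n
          · rw [h5]; exact h2
          · have ha := a.2
            exact coeff_eq_zero_of_natDegree_lt (by omega)
        · rfl
      | right a =>
        simp only [sylvester, of_apply, Fin.addCases_right]
        split_ifs with h3
        · rw [Set.mem_Icc] at h3
          obtain h5 | h4 := eq_or_ne (m + n - 1 - (a : ℕ)) m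
          · rw [h5]; exact h1
          · have ha := a.2
            exact coeff_eq_zero_of_natDegree_lt (by omega)
        · rfl
    have h0 : f ≠ 0 ∨ g ≠ 0 := by
      rcases hl with hl | hl
      · left; rintro rfl; simp at hl
      · right; rintro rfl; simp at hl
    obtain ⟨d, f₁, g₁, hd⟩ := exists_dec f g h0
    refine ⟨hl, d, f₁, g₁, hd, ?_⟩
    by_contra hcon
    push Not at hcon
    obtain ⟨hd1, hd2, hd3, hd4⟩ := hd
    rw [vv_ne_zero_iff f g hf hg] at hj
    -- the kernel vector
    have hdeg : ∀ (r u : K[X]) (k : ℕ), r.natDegree ≤ 1 → (d * u).natDegree ≤ k →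
        (r * u).degree < (k : WithBot ℕ) := by
      intro r u k hr hu
      by_cases hu0 : u = 0
      · rw [hu0, mul_zero, degree_zero]
        exact WithBot.bot_lt_coe _
      · rw [natDegree_mul hd1.ne_zero hu0] at hu
        have h1 : (r * u).natDegree < k := natDegree_mul_le.trans_lt (by omega)
        exact degree_le_natDegree.trans_lt (by exact_mod_cast h1)
    set w : K[X] → Fin (m + n) → K := fun r => vecOf m n (r * f₁) (-(r * g₁)) with hw
    obtain ⟨r, hr0, hr1, hrj⟩ : ∃ r : K[X], r ≠ 0 ∧ r.natDegree ≤ 1 ∧ w r j = 0 := by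
      by_cases hw1 : w 1 j = 0
      · exact ⟨1, one_ne_zero, by simp, hw1⟩
      · refine ⟨C (w X j) - C (w 1 j) * X, ?_, ?_, ?_⟩
        · intro h1
          have h2 := congrArg (fun r : K[X] => r.coeff 1) h1
          simp at h2
          exact hw1 h2
        · refine (natDegree_sub_le _ _).trans (max_le (by simp) ?_)
          exact (natDegree_C_mul_le _ _).trans natDegree_X_le
        · have lin : w (C (w X j) - C (w 1 j) * X) j = w X j * w 1 j - w 1 j * w X j := by
            simp only [hw]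
            unfold vecOf
            induction j using Fin.addCases with
            | left a =>
              simp only [Fin.addCases_left, one_mul, sub_mul, coeff_sub, mul_assoc, coeff_C_mul]
            | right a =>
              simp only [Fin.addCases_right, one_mul, sub_mul, coeff_sub, mul_assoc, coeff_C_mul,
                coeff_neg]
              ring
          rw [lin]
          ring
    have hp := pX_vecOf (m := m) (n := n) (r * f₁) (-(r * g₁))
      (hdeg r f₁ m hr1 (by rw [← hd3]; exact hf))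
    have hq := qX_vecOf (m := m) (n := n) (r * f₁) (-(r * g₁))
      (by rw [degree_neg]; exact hdeg r g₁ n hr1 (by rw [← hd4]; exact hg))
    have h1 := hj (w r) hrj (by
      intro i _
      simp only [hw]
      rw [hp, hq, hd3, hd4, show d * f₁ * -(r * g₁) + d * g₁ * (r * f₁) = 0 by ring, coeff_zero])
    simp only [hw] at h1
    rw [h1] at hp hq
    have hp' : r * f₁ = 0 := by rw [← hp]; simp [pX]
    have hq' : r * g₁ = 0 := by rw [← neg_eq_zero, ← hq]; simp [qX]
    have hf1 : f₁ = 0 := (mul_eq_zero.1 hp').resolve_left hr0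
    have hg1 : g₁ = 0 := (mul_eq_zero.1 hq').resolve_left hr0
    rw [hf1, hg1] at hd2
    exact not_isCoprime_zero_zero hd2
  · rintro ⟨hl, d, f₁, g₁, hd, hd1⟩
    rcases Nat.eq_or_lt_of_le hd1 with h1 | h1
    · rcases hl with hl | hl
      · exact ⟨_, vv_top_ne_zero hf hg h hm hl hd h1⟩
      · exact ⟨_, vv_top_ne_zero' hf hg h hn hl hd h1⟩
    · have h2 : d = 1 := eq_one_of_monic_natDegree_zero hd.1 (by omega)
      have hc : IsCoprime f g := by
        rw [hd.2.2.1, hd.2.2.2, h2, one_mul, one_mul]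
        exact hd.2.1
      have h3 := res_ne_zero hf hg hl hc
      by_contra hcon
      push Not at hcon
      have h4 := bezout_vv f g hf hg h
      have h5 : vv f g m n h = 0 := funext hcon
      rw [h5] at h4
      apply h3
      have h6 : (C (resultant f g m n) : K[X]) = 0 := by
        rw [← h4]
        simp [pX, qX]
      simpa using h6

end Pool.Agent.X23.BR
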