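import Pool.Agent.X23.BR.Good

/-!
# The Bezout denominator of two integer polynomials
-/

set_option autoImplicit false

namespace Pool.Agent.X23.BR

open Polynomial Matrix Finset

/-- `f` and `g` share no root in `ℂ` -/
def NoCommonRoot (f g : ℤ[X]) : Prop := ¬ ∃ z : ℂ, aeval z f = 0 ∧ aeval z g = 0

/-- the set of all positive integers `N` such that `N p` and `N q` have integer coefficients, where
`p f + q g = 1`, `deg p < deg g`, `deg q < deg f` -/
def DenSet (f g : ℤ[X]) : Set ℕ :=
  {N | 0 < N ∧ ∃ p q : ℚ[X],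
    p * f.map (Int.castRingHom ℚ) + q * g.map (Int.castRingHom ℚ) = 1 ∧
    p.degree < g.degree ∧ q.degree < f.degree ∧
    ∃ P Q : ℤ[X], P.map (Int.castRingHom ℚ) = C (N : ℚ) * p ∧
      Q.map (Int.castRingHom ℚ) = C (N : ℚ) * q}

/-- the Bezout denominator -/
noncomputable def BezDen (f g : ℤ[X]) : ℕ := sInf (DenSet f g)

/-- the absolute value of the resultant -/
noncomputable def AbsRes (f g : ℤ[X]) : ℕ := (resultant f g f.natDegree g.natDegree).natAbs

theorem noCommonRoot_iff {f g : ℤ[X]} {m n : ℕ} (hf : f.natDegree = m) (hg : g.natDegree = n)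
    (hm : 0 < m) (hn : 0 < n) : NoCommonRoot f g ↔ resultant f g m n ≠ 0 := by
  have hi : Function.Injective (Int.castRingHom ℂ) := Int.cast_injective
  constructor
  · intro h
    have h1 : IsCoprime (f.map (Int.castRingHom ℂ)) (g.map (Int.castRingHom ℂ)) := by
      rw [isCoprime_iff_aeval_ne_zero_of_isAlgClosed (k := ℂ) (K := ℂ)]
      intro a
      by_contra hcon
      push Not at hcon
      apply h
      refine ⟨a, ?_, ?_⟩
      · have := hcon.1
        rw [coe_aeval_eq_eval, eval_map] at this
        rw [aeval_def]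
        exact this
      · have := hcon.2
        rw [coe_aeval_eq_eval, eval_map] at this
        rw [aeval_def]
        exact this
    have h2 := res_ne_zero (m := m) (n := n) (by rw [natDegree_map_eq_of_injective hi, hf])
      (by rw [natDegree_map_eq_of_injective hi, hg]) (Or.inl (by
        rw [coeff_map, ← hf]
        simp only [coeff_natDegree, eq_intCast, ne_eq, Int.cast_eq_zero, leadingCoeff_eq_zero]
        rintro rfl
        simp at hf
        omega)) h1
    rw [resultant_map_map] at h2
    intro h3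
    rw [h3] at h2
    simp at h2
  · rintro h ⟨z, h1, h2⟩
    have h3 := bezout_vv f g hf.le hg.le (by omega : 0 < m + n)
    have h4 := congrArg (aeval z) h3
    rw [map_add, map_mul, map_mul, h1, h2, zero_mul, zero_mul, add_zero, aeval_C] at h4
    apply h
    have h5 : ((resultant f g m n : ℤ) : ℂ) = 0 := by
      rw [h4]; simp
    exact_mod_cast h5

theorem mem_denSet_iff {f g : ℤ[X]} {m n : ℕ} (hf : f.natDegree = m) (hg : g.natDegree = n)
    (hm : 0 < m) (hn : 0 < n) (hR : resultant f g m n ≠ 0) (h : 0 < m + n) (N : ℕ) :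
    N ∈ DenSet f g ↔ 0 < N ∧ ∀ j, resultant f g m n ∣ N * vv f g m n h j := by
  have hi : Function.Injective (Int.castRingHom ℚ) := Int.cast_injective
  have hf0 : f ≠ 0 := by rintro rfl; simp at hf; omega
  have hg0 : g ≠ 0 := by rintro rfl; simp at hg; omega
  have hRq : ((resultant f g m n : ℤ) : ℚ) ≠ 0 := by exact_mod_cast hR
  have hfd : f.degree = m := by rw [degree_eq_natDegree hf0, hf]
  have hgd : g.degree = n := by rw [degree_eq_natDegree hg0, hg]
  have hb := bezout_vv f g hf.le hg.le h
  have hbq : (f.map (Int.castRingHom ℚ)) * (qX (vv f g m n h)).map (Int.castRingHom ℚ) +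
      (g.map (Int.castRingHom ℚ)) * (pX (vv f g m n h)).map (Int.castRingHom ℚ) =
      C ((resultant f g m n : ℤ) : ℚ) := by
    have := congrArg (Polynomial.map (Int.castRingHom ℚ)) hb
    simpa using this
  have hCC : (C (((resultant f g m n : ℤ) : ℚ)⁻¹) : ℚ[X]) * C ((resultant f g m n : ℤ) : ℚ) = 1 := by
    rw [← C_mul, inv_mul_cancel₀ hRq, C_1]
  constructor
  · rintro ⟨hN, p, q, h1, h2, h3, P, Q, hP, hQ⟩
    refine ⟨hN, ?_⟩
    have hcop : IsCoprime (f.map (Int.castRingHom ℚ)) (g.map (Int.castRingHom ℚ)) := ⟨p, q, h1⟩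
    have e1 : f.map (Int.castRingHom ℚ) * (p - C (((resultant f g m n : ℤ) : ℚ)⁻¹) *
        (qX (vv f g m n h)).map (Int.castRingHom ℚ)) + g.map (Int.castRingHom ℚ) *
        (q - C (((resultant f g m n : ℤ) : ℚ)⁻¹) *
        (pX (vv f g m n h)).map (Int.castRingHom ℚ)) = 0 := by
      linear_combination h1 - C (((resultant f g m n : ℤ) : ℚ)⁻¹) * hbq - hCC
    have hq' : (q - C (((resultant f g m n : ℤ) : ℚ)⁻¹) *
        (pX (vv f g m n h)).map (Int.castRingHom ℚ)).degree < (m : WithBot ℕ) := by
      refine (degree_sub_le _ _).trans_lt (max_lt (by rw [← hfd]; exact h3) ?_)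
      rw [degree_C_mul (inv_ne_zero hRq)]
      exact (degree_map_le).trans_lt (degree_pX _)
    obtain ⟨h4, h5⟩ := core_zero (m := m) (n := n) hcop (by
        rw [coeff_map, ← hf]
        simp only [coeff_natDegree, eq_intCast, ne_eq, Int.cast_eq_zero, leadingCoeff_eq_zero]
        exact hf0) (by rw [natDegree_map_eq_of_injective hi, hf]) hq' e1
    have h6 : C ((resultant f g m n : ℤ) : ℚ) * p =
        (qX (vv f g m n h)).map (Int.castRingHom ℚ) := by
      linear_combination C ((resultant f g m n : ℤ) : ℚ) * h5 +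
        (qX (vv f g m n h)).map (Int.castRingHom ℚ) * hCC
    have h7 : C ((resultant f g m n : ℤ) : ℚ) * q =
        (pX (vv f g m n h)).map (Int.castRingHom ℚ) := by
      linear_combination C ((resultant f g m n : ℤ) : ℚ) * h4 +
        (pX (vv f g m n h)).map (Int.castRingHom ℚ) * hCC
    have h8 : C (resultant f g m n) * P = C (N : ℤ) * qX (vv f g m n h) := by
      apply map_injective _ hi
      rw [Polynomial.map_mul, Polynomial.map_mul, hP, ← h6, map_C, map_C]
      simp only [eq_intCast, Int.cast_natCast]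
      ring
    have h9 : C (resultant f g m n) * Q = C (N : ℤ) * pX (vv f g m n h) := by
      apply map_injective _ hi
      rw [Polynomial.map_mul, Polynomial.map_mul, hQ, ← h7, map_C, map_C]
      simp only [eq_intCast, Int.cast_natCast]
      ring
    intro j
    induction j using Fin.addCases with
    | left a =>
      rw [← coeff_pX (vv f g m n h) a, ← coeff_C_mul, ← h9, coeff_C_mul]
      exact Dvd.intro _ rfl
    | right b =>
      rw [← coeff_qX (vv f g m n h) b, ← coeff_C_mul, ← h8, coeff_C_mul]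
      exact Dvd.intro _ rfl
  · rintro ⟨hN, hj⟩
    choose w hw using hj
    have e1 : C (resultant f g m n) * qX w = C (N : ℤ) * qX (vv f g m n h) := by
      unfold qX
      rw [mul_sum, mul_sum]
      refine Finset.sum_congr rfl fun b _ => ?_
      rw [← mul_assoc, ← mul_assoc, ← C_mul, ← C_mul, hw]
    have e2 : C (resultant f g m n) * pX w = C (N : ℤ) * pX (vv f g m n h) := by
      unfold pX
      rw [mul_sum, mul_sum]
      refine Finset.sum_congr rfl fun b _ => ?_
      rw [← mul_assoc, ← mul_assoc, ← C_mul, ← C_mul, hw]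
    have e1' := congrArg (Polynomial.map (Int.castRingHom ℚ)) e1
    have e2' := congrArg (Polynomial.map (Int.castRingHom ℚ)) e2
    rw [Polynomial.map_mul, Polynomial.map_mul, map_C, map_C] at e1' e2'
    simp only [eq_intCast, Int.cast_natCast] at e1' e2'
    refine ⟨hN, C (((resultant f g m n : ℤ) : ℚ)⁻¹) *
        (qX (vv f g m n h)).map (Int.castRingHom ℚ), C (((resultant f g m n : ℤ) : ℚ)⁻¹) *
        (pX (vv f g m n h)).map (Int.castRingHom ℚ), ?_, ?_, ?_, qX w, pX w, ?_, ?_⟩
    · linear_combination C (((resultant f g m n : ℤ) : ℚ)⁻¹) * hbq + hCC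
    · rw [degree_C_mul (inv_ne_zero hRq), hgd]
      exact (degree_map_le).trans_lt (degree_qX _)
    · rw [degree_C_mul (inv_ne_zero hRq), hfd]
      exact (degree_map_le).trans_lt (degree_pX _)
    · linear_combination C (((resultant f g m n : ℤ) : ℚ)⁻¹) * e1' -
        (qX w).map (Int.castRingHom ℚ) * hCC
    · linear_combination C (((resultant f g m n : ℤ) : ℚ)⁻¹) * e2' -
        (pX w).map (Int.castRingHom ℚ) * hCC

theorem bezDen_eq_iff {f g : ℤ[X]} {m n : ℕ} (hf : f.natDegree = m) (hg : g.natDegree = n)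
    (hm : 0 < m) (hn : 0 < n) (hR : resultant f g m n ≠ 0) (h : 0 < m + n) :
    BezDen f g = AbsRes f g ↔
      ∀ p : ℕ, p.Prime → ∃ j, ¬ (p : ℤ) ∣ vv f g m n h j := by
  have hAR : AbsRes f g = (resultant f g m n).natAbs := by
    unfold AbsRes
    rw [hf, hg]
  have hmem := mem_denSet_iff hf hg hm hn hR h
  have hpos : 0 < (resultant f g m n).natAbs := Int.natAbs_pos.2 hR
  have hRmem : (resultant f g m n).natAbs ∈ DenSet f g := by
    rw [hmem]
    refine ⟨hpos, fun j => ?_⟩
    apply Dvd.dvd.mul_right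
    rw [Int.dvd_natAbs]
  rw [hAR]
  constructor
  · intro hB p hp
    by_contra hcon
    push Not at hcon
    have hpR : (p : ℤ) ∣ resultant f g m n := by
      have hb := bezout_vv f g hf.le hg.le h
      have hq : C (p : ℤ) ∣ qX (vv f g m n h) := by
        unfold qX
        refine Finset.dvd_sum fun b _ => Dvd.dvd.mul_right ?_ _
        exact map_dvd C (hcon _)
      have hp' : C (p : ℤ) ∣ pX (vv f g m n h) := by
        unfold pX
        refine Finset.dvd_sum fun b _ => Dvd.dvd.mul_right ?_ _
        exact map_dvd C (hcon _)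
      have h1 : C (p : ℤ) ∣ C (resultant f g m n) := by
        rw [← hb]
        exact dvd_add (hq.mul_left _) (hp'.mul_left _)
      have h2 := (C_dvd_iff_dvd_coeff _ _).1 h1 0
      rwa [coeff_C_zero] at h2
    obtain ⟨N, hN⟩ : p ∣ (resultant f g m n).natAbs := Int.natCast_dvd.1 hpR
    have hN0 : 0 < N := by
      rcases Nat.eq_zero_or_pos N with h0 | h0
      · rw [h0] at hN; omega
      · exact h0
    have hNmem : N ∈ DenSet f g := by
      rw [hmem]
      refine ⟨hN0, fun j => ?_⟩
      obtain ⟨w, hw⟩ := hcon j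
      rw [hw, ← mul_assoc, mul_comm (N : ℤ) (p : ℤ)]
      apply Dvd.dvd.mul_right
      have : ((p : ℤ) * (N : ℤ)) = (((resultant f g m n).natAbs : ℕ) : ℤ) := by
        rw [hN]; push_cast; ring
      rw [this, Int.dvd_natAbs]
    have h3 : BezDen f g ≤ N := Nat.sInf_le hNmem
    rw [hB, hN] at h3
    have := hp.two_le
    nlinarith
  · intro hp
    apply le_antisymm (Nat.sInf_le hRmem)
    have hBmem : BezDen f g ∈ DenSet f g := Nat.sInf_mem ⟨_, hRmem⟩
    rw [hmem] at hBmem
    obtain ⟨hB0, hBj⟩ := hBmem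
    have hg1 : IsUnit (univ.gcd (fun j => vv f g m n h j)) := by
      by_contra hcon
      rw [Int.isUnit_iff_natAbs_eq] at hcon
      obtain ⟨p, hp1, hp2⟩ := Nat.exists_prime_and_dvd hcon
      obtain ⟨j, hj⟩ := hp p hp1
      apply hj
      exact (Int.natCast_dvd.2 hp2).trans (Finset.gcd_dvd (mem_univ j))
    have h1 : resultant f g m n ∣ univ.gcd (fun j => (BezDen f g : ℤ) * vv f g m n h j) :=
      Finset.dvd_gcd fun j _ => hBj j
    rw [Finset.gcd_mul_left] at h1
    have h2 : resultant f g m n ∣ (BezDen f g : ℤ) := by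
      have h3 := (hg1.dvd_mul_right).1 h1
      rwa [dvd_normalize_iff] at h3
    have h3 := Int.natAbs_dvd_natAbs.2 h2
    rw [Int.natAbs_natCast] at h3
    exact Nat.le_of_dvd hB0 h3

end Pool.Agent.X23.BR
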