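import Mathlib

/-!
# Bezout denominator and resultant: linear algebra of the Sylvester matrix
-/

set_option autoImplicit false

namespace Pool.Agent.X23.BR

open Polynomial Matrix Finset

section ring

variable {R : Type*} [CommRing R]

/-- the polynomial of degree less than `m` given by the first `m` coordinates -/
noncomputable def pX {m n : ℕ} (x : Fin (m + n) → R) : R[X] :=
  ∑ a : Fin m, C (x (Fin.castAdd n a)) * X ^ (a : ℕ)

/-- the polynomial of degree less than `n` given by the last `n` coordinates -/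
noncomputable def qX {m n : ℕ} (x : Fin (m + n) → R) : R[X] :=
  ∑ b : Fin n, C (x (Fin.natAdd m b)) * X ^ (b : ℕ)

theorem coeff_pX {m n : ℕ} (x : Fin (m + n) → R) (a : Fin m) :
    (pX x).coeff a = x (Fin.castAdd n a) := by
  unfold pX
  rw [finset_sum_coeff, Finset.sum_eq_single a]
  · simp
  · intro b _ hb
    rw [coeff_C_mul, coeff_X_pow, if_neg (fun h => hb (Fin.ext h.symm)), mul_zero]
  · simp

theorem coeff_qX {m n : ℕ} (x : Fin (m + n) → R) (b : Fin n) :
    (qX x).coeff b = x (Fin.natAdd m b) := by
  unfold qX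
  rw [finset_sum_coeff, Finset.sum_eq_single b]
  · simp
  · intro c _ hc
    rw [coeff_C_mul, coeff_X_pow, if_neg (fun h => hc (Fin.ext h.symm)), mul_zero]
  · simp

theorem degree_pX {m n : ℕ} (x : Fin (m + n) → R) : (pX x).degree < (m : WithBot ℕ) := by
  unfold pX
  rw [← mem_degreeLT]
  refine Submodule.sum_mem _ fun a _ => ?_
  rw [mem_degreeLT]
  exact (degree_C_mul_X_pow_le _ _).trans_lt (by exact_mod_cast a.2)

theorem degree_qX {m n : ℕ} (x : Fin (m + n) → R) : (qX x).degree < (n : WithBot ℕ) := by
  unfold qX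
  rw [← mem_degreeLT]
  refine Submodule.sum_mem _ fun a _ => ?_
  rw [mem_degreeLT]
  exact (degree_C_mul_X_pow_le _ _).trans_lt (by exact_mod_cast a.2)

/-- the vector of two polynomials -/
noncomputable def vecOf (m n : ℕ) (p q : R[X]) : Fin (m + n) → R :=
  Fin.addCases (fun a => p.coeff a) (fun b => q.coeff b)

theorem pX_vecOf {m n : ℕ} (p q : R[X]) (hp : p.degree < (m : WithBot ℕ)) :
    pX (vecOf m n p q) = p := by
  ext i
  by_cases hi : i < m
  · have := coeff_pX (vecOf m n p q) ⟨i, hi⟩
    simp only at this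
    rw [this]
    unfold vecOf
    rw [Fin.addCases_left]
  · rw [coeff_eq_zero_of_degree_lt, coeff_eq_zero_of_degree_lt]
    · exact hp.trans_le (by exact_mod_cast not_lt.1 hi)
    · exact (degree_pX _).trans_le (by exact_mod_cast not_lt.1 hi)

theorem qX_vecOf {m n : ℕ} (p q : R[X]) (hq : q.degree < (n : WithBot ℕ)) :
    qX (vecOf m n p q) = q := by
  ext i
  by_cases hi : i < n
  · have := coeff_qX (vecOf m n p q) ⟨i, hi⟩
    simp only at this
    rw [this]
    unfold vecOf
    rw [Fin.addCases_right]
  · rw [coeff_eq_zero_of_degree_lt, coeff_eq_zero_of_degree_lt]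
    · exact hq.trans_le (by exact_mod_cast not_lt.1 hi)
    · exact (degree_qX _).trans_le (by exact_mod_cast not_lt.1 hi)

theorem eq_zero_of_pX_qX {m n : ℕ} (x : Fin (m + n) → R) (hp : pX x = 0) (hq : qX x = 0) :
    x = 0 := by
  funext j
  induction j using Fin.addCases with
  | left a => rw [← coeff_pX x a, hp]; simp
  | right b => rw [← coeff_qX x b, hq]; simp

theorem mulVec_sylvester {m n : ℕ} (f g : R[X]) (hf : f.natDegree ≤ m) (hg : g.natDegree ≤ n)
    (x : Fin (m + n) → R) (i : Fin (m + n)) :
    (sylvester f g m n *ᵥ x) i = (f * qX x + g * pX x).coeff i := by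
  have key : ∀ (h : R[X]) (k a : ℕ) (y : R), h.natDegree ≤ k →
      (if (i : ℕ) ∈ Set.Icc a (a + k) then h.coeff (i - a) else 0) * y =
        (h * (C y * X ^ a)).coeff i := by
    intro h k a y hk
    rw [show h * (C y * X ^ a) = C y * (h * X ^ a) by ring, coeff_C_mul, coeff_mul_X_pow',
      mul_comm]
    congr 1
    by_cases h1 : a ≤ (i : ℕ)
    · rw [if_pos h1]
      by_cases h2 : (i : ℕ) ≤ a + k
      · rw [if_pos ⟨h1, h2⟩]
      · rw [if_neg (fun h' => h2 h'.2), coeff_eq_zero_of_natDegree_lt (by omega)]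
    · rw [if_neg h1, if_neg (fun h' => h1 h'.1)]
  rw [mulVec, dotProduct, Fin.sum_univ_add, coeff_add, add_comm]
  congr 1
  · unfold qX
    rw [mul_sum, finset_sum_coeff]
    refine Finset.sum_congr rfl fun b _ => ?_
    rw [← key f m b _ hf]
    simp [sylvester]
  · unfold pX
    rw [mul_sum, finset_sum_coeff]
    refine Finset.sum_congr rfl fun b _ => ?_
    rw [← key g n b _ hg]
    simp [sylvester]

/-- column `0` of the adjugate of the Sylvester matrix -/
noncomputable def vv (f g : R[X]) (m n : ℕ) (h : 0 < m + n) (j : Fin (m + n)) : R :=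
  (sylvester f g m n).adjugate j ⟨0, h⟩

theorem vv_map {S : Type*} [CommRing S] (φ : R →+* S) (f g : R[X]) (m n : ℕ) (h : 0 < m + n)
    (j : Fin (m + n)) : vv (f.map φ) (g.map φ) m n h j = φ (vv f g m n h j) := by
  unfold vv
  rw [sylvester_map_map, ← RingHom.map_adjugate]
  rfl

theorem sylvester_mulVec_vv (f g : R[X]) (m n : ℕ) (h : 0 < m + n) :
    sylvester f g m n *ᵥ vv f g m n h =
      Pi.single ⟨0, h⟩ (resultant f g m n) := by
  have h1 : vv f g m n h = (sylvester f g m n).adjugate *ᵥ Pi.single ⟨0, h⟩ 1 := by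
    funext j
    rw [mulVec_single_one]
    rfl
  rw [h1, mulVec_mulVec, mul_adjugate, smul_mulVec, one_mulVec]
  unfold resultant
  funext j
  by_cases hj : j = ⟨0, h⟩
  · subst hj
    simp
  · simp [Pi.single_eq_of_ne hj]

/-- The relation `f q + g p = Res`. -/
theorem bezout_vv {m n : ℕ} (f g : R[X]) (hf : f.natDegree ≤ m) (hg : g.natDegree ≤ n)
    (h : 0 < m + n) :
    f * qX (vv f g m n h) + g * pX (vv f g m n h) = C (resultant f g m n) := by
  ext i
  by_cases hi : i < m + n
  · have h1 := mulVec_sylvester f g hf hg (vv f g m n h) ⟨i, hi⟩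
    simp only at h1
    rw [← h1, sylvester_mulVec_vv, coeff_C]
    by_cases h0 : i = 0
    · subst h0
      simp
    · rw [if_neg h0, Pi.single_eq_of_ne]
      intro h2
      exact h0 (congrArg Fin.val h2)
  · rw [coeff_C, if_neg (by omega), coeff_eq_zero_of_degree_lt]
    refine (degree_add_le _ _).trans_lt (max_lt ?_ ?_)
    · refine (degree_mul_le _ _).trans_lt ?_
      by_cases hq : qX (vv f g m n h) = 0
      · rw [hq, degree_zero, WithBot.add_bot]
        exact WithBot.bot_lt_coe _
      · have h2 := degree_qX (vv f g m n h)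
        have h3 : f.degree ≤ (m : WithBot ℕ) := degree_le_of_natDegree_le hf
        rw [degree_eq_natDegree hq] at h2 ⊢
        have h4 : (qX (vv f g m n h)).natDegree < n := by exact_mod_cast h2
        calc f.degree + ((qX (vv f g m n h)).natDegree : WithBot ℕ)
            ≤ (m : WithBot ℕ) + ((qX (vv f g m n h)).natDegree : WithBot ℕ) := by gcongr
          _ < (i : WithBot ℕ) := by exact_mod_cast (by omega)
    · refine (degree_mul_le _ _).trans_lt ?_
      by_cases hq : pX (vv f g m n h) = 0
      · rw [hq, degree_zero, WithBot.add_bot]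
        exact WithBot.bot_lt_coe _
      · have h2 := degree_pX (vv f g m n h)
        have h3 : g.degree ≤ (n : WithBot ℕ) := degree_le_of_natDegree_le hg
        rw [degree_eq_natDegree hq] at h2 ⊢
        have h4 : (pX (vv f g m n h)).natDegree < m := by exact_mod_cast h2
        calc g.degree + ((pX (vv f g m n h)).natDegree : WithBot ℕ)
            ≤ (n : WithBot ℕ) + ((pX (vv f g m n h)).natDegree : WithBot ℕ) := by gcongr
          _ < (i : WithBot ℕ) := by exact_mod_cast (by omega)

end ring

section field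

variable {K : Type*} [Field K]

/-- `vv j ≠ 0` iff the homogeneous system with the additional equation `x j = 0` has only the
trivial solution. -/
theorem vv_ne_zero_iff {m n : ℕ} (f g : K[X]) (hf : f.natDegree ≤ m) (hg : g.natDegree ≤ n)
    (h : 0 < m + n) (j : Fin (m + n)) :
    vv f g m n h j ≠ 0 ↔
      ∀ x : Fin (m + n) → K, x j = 0 →
        (∀ i : Fin (m + n), (i : ℕ) ≠ 0 → (f * qX x + g * pX x).coeff i = 0) → x = 0 := by
  unfold vv
  rw [adjugate_apply, Ne, ← exists_mulVec_eq_zero_iff, not_exists]
  have key : ∀ x : Fin (m + n) → K,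
      (sylvester f g m n).updateRow ⟨0, h⟩ (Pi.single j 1) *ᵥ x = 0 ↔
        x j = 0 ∧ ∀ i : Fin (m + n), (i : ℕ) ≠ 0 → (f * qX x + g * pX x).coeff i = 0 := by
    intro x
    constructor
    · intro hx
      constructor
      · have := congrFun hx ⟨0, h⟩
        simpa [mulVec, dotProduct, updateRow_self, Pi.single_apply] using this
      · intro i hi
        have h1 := congrFun hx i
        have hi' : i ≠ ⟨0, h⟩ := fun h2 => hi (congrArg Fin.val h2)
        rw [← mulVec_sylvester f g hf hg]
        rw [mulVec, updateRow_ne hi'] at h1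
        exact h1
    · rintro ⟨h1, h2⟩
      funext i
      by_cases hi : i = ⟨0, h⟩
      · subst hi
        simpa [mulVec, dotProduct, updateRow_self, Pi.single_apply] using h1
      · have hi' : (i : ℕ) ≠ 0 := fun h3 => hi (Fin.ext h3)
        have h3 := h2 i hi'
        rw [← mulVec_sylvester f g hf hg] at h3
        rw [mulVec, updateRow_ne hi]
        exact h3
  constructor
  · intro h1 x hx0 hx
    by_contra hne
    exact h1 x ⟨hne, (key x).2 ⟨hx0, hx⟩⟩
  · rintro h1 x ⟨hne, hx⟩
    obtain ⟨h2, h3⟩ := (key x).1 hx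
    exact hne (h1 x h2 h3)

end field

end Pool.Agent.X23.BR
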