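import Pool.Agent.X23.BR.Tail

/-!
# The large primes
-/

set_option autoImplicit false

namespace Pool.Agent.X23.BR

open Finset Filter Topology

variable {m n : ℕ}

theorem count_class_large (H p : ℕ) (hp : H < p) (τ : ZMod p) :
    #{t ∈ Icc (-(H : ℤ)) H | ((t : ℤ) : ZMod p) = τ} ≤ 3 := by
  have h1 : Icc (-(H : ℤ)) H = Ioc (-(H : ℤ) - 1) H := by
    ext x
    simp only [mem_Icc, mem_Ioc]
    constructor <;> intro h <;> omega
  rw [h1]
  have h2 := (abs_le.1 (count_mod p (by omega) (-(H : ℤ) - 1) H (by omega) τ)).2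
  have hp0 : (0 : ℝ) < p := by
    have : 0 < p := by omega
    exact_mod_cast this
  have h3 : (((H : ℤ) : ℝ) - ((-(H : ℤ) - 1 : ℤ) : ℝ)) / p ≤ 2 := by
    rw [div_le_iff₀ hp0]
    have : (H : ℝ) + 1 ≤ p := by exact_mod_cast hp
    push_cast
    linarith
  have h4 : (#{t ∈ Ioc (-(H : ℤ) - 1) H | ((t : ℤ) : ZMod p) = τ} : ℝ) ≤ 3 := by linarith
  exact_mod_cast h4

open Classical in
theorem count_t (H p : ℕ) (hp : p.Prime) (hpH : H < p) (z : Idx m n → ℤ)
    (hz : 0 < z (Sum.inl (Fin.last m))) (hz' : z (Sum.inl (Fin.last m)) ≤ H) :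
    #{t ∈ Icc (-(H : ℤ)) H | (p : ℤ) ∣ rs (Function.update z (Sum.inr 0) t)} ≤ 3 * m := by
  haveI := Fact.mk hp
  set T : Finset (ZMod p) := univ.filter
    (fun τ => rs (Function.update (fun i => ((z i : ℤ) : ZMod p)) (Sum.inr 0) τ) = 0) with hT
  have hTm : #T ≤ m := by
    apply card_roots_b0 (fun i => ((z i : ℤ) : ZMod p))
    · rw [Ne, ZMod.intCast_zmod_eq_zero_iff_dvd]
      intro h
      have := Int.le_of_dvd hz h
      omega
    · intro t ht
      exact (mem_filter.1 ht).2
  rw [Finset.card_eq_sum_card_fiberwise (f := fun t : ℤ => (t : ZMod p)) (t := T)]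
  · calc _ ≤ ∑ τ ∈ T, 3 := by
          refine Finset.sum_le_sum fun τ _ => ?_
          refine le_trans (Finset.card_le_card ?_) (count_class_large H p hpH τ)
          intro t ht
          simp only [mem_filter] at ht ⊢
          exact ⟨ht.1.1, ht.2⟩
      _ = #T * 3 := by rw [Finset.sum_const, smul_eq_mul]
      _ ≤ 3 * m := by omega
  · intro t ht
    rw [mem_coe, mem_filter] at ht
    rw [mem_coe, hT, mem_filter]
    refine ⟨mem_univ _, ?_⟩
    have h1 : Function.update (fun i => ((z i : ℤ) : ZMod p)) (Sum.inr 0) ((t : ℤ) : ZMod p) =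
        fun i => (Int.castRingHom (ZMod p)) (Function.update z (Sum.inr 0) t i) := by
      funext i
      by_cases hi : i = Sum.inr 0
      · subst hi; simp
      · simp [Function.update_of_ne hi]
    rw [h1, rs_map, eq_intCast, ZMod.intCast_zmod_eq_zero_iff_dvd]
    exact ht.2

/-- the eliminant -/
noncomputable def Dz (h : 0 < m + n) (hm : 0 < m) (z : Idx m n → ℤ) : ℤ :=
  DD h (topIdx m n hm) (dV h (topIdx m n hm)) z

/-- the generic eliminant -/
noncomputable def Dg (h : 0 < m + n) (hm : 0 < m) : MvPolynomial (Idx m n) ℤ :=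
  DD h (topIdx m n hm) (dV h (topIdx m n hm)) (gen m n)

theorem eval_Dg (h : 0 < m + n) (hm : 0 < m) (z : Idx m n → ℤ) :
    MvPolynomial.eval z (Dg h hm) = Dz h hm z := by
  unfold Dg Dz
  rw [← DD_map]
  congr 1
  funext i
  simp [gen]

theorem eval_rs (z : Idx m n → ℤ) : MvPolynomial.eval z (rs (gen m n)) = rs z := by
  rw [← rs_map]
  congr 1
  funext i
  simp [gen]

theorem Dz_update (h : 0 < m + n) (hm : 0 < m) (z : Idx m n → ℤ) (t : ℤ) :
    Dz h hm (Function.update z (Sum.inr 0) t) = Dz h hm z := DD_update _ _ _ _ _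

/-- the box without the coordinate `b₀` -/
noncomputable def Bx' (m n H : ℕ) : Finset (Idx m n → ℤ) :=
  Fintype.piFinset fun i => if i = Sum.inr 0 then {0} else Icc (-(H : ℤ)) H

theorem card_Icc' (H : ℕ) : #(Icc (-(H : ℤ)) H) = 2 * H + 1 := by
  rw [Int.card_Icc]
  omega

theorem card_Bx' (H : ℕ) : #(Bx' m n H) = (2 * H + 1) ^ (m + n + 1) := by
  unfold Bx'
  rw [Fintype.card_piFinset, ← Finset.mul_prod_erase univ _ (mem_univ (Sum.inr 0 : Idx m n))]
  rw [if_pos rfl, Finset.card_singleton, one_mul]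
  have h1 : ∀ i ∈ univ.erase (Sum.inr 0 : Idx m n),
      #(if i = Sum.inr 0 then ({0} : Finset ℤ) else Icc (-(H : ℤ)) H) = 2 * H + 1 := by
    intro i hi
    rw [if_neg (Finset.mem_erase.1 hi).1, card_Icc']
  rw [Finset.prod_congr rfl h1, Finset.prod_const, Finset.card_erase_of_mem (mem_univ _),
    Finset.card_univ, card_Idx]
  rfl

open Classical in
theorem card_large (hm : 2 ≤ m) (hn : 2 ≤ n) (h : 0 < m + n) (hm0 : 0 < m) :
    ∃ c : ℕ, ∀ H : ℕ, c ≤ H →
      #{z ∈ Bx m n H | Dz h hm0 z ≠ 0 ∧ ∃ p : ℕ, p.Prime ∧ H < p ∧ (p : ℤ) ∣ rs z ∧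
        (p : ℤ) ∣ Dz h hm0 z} ≤ c * (2 * H + 1) ^ (m + n + 1) := by
  obtain ⟨c0, k, hck⟩ := eval_growth (Dg h hm0)
  refine ⟨max (max c0 1) ((k + 1) * (3 * m)), fun H hH => ?_⟩
  have hc0 : c0 ≤ H := (le_max_left _ _).trans ((le_max_left _ _).trans hH)
  have hH1 : 1 ≤ H := (le_max_right _ _).trans ((le_max_left _ _).trans hH)
  set Z := {z ∈ Bx m n H | Dz h hm0 z ≠ 0 ∧ ∃ p : ℕ, p.Prime ∧ H < p ∧ (p : ℤ) ∣ rs z ∧
        (p : ℤ) ∣ Dz h hm0 z} with hZ
  rw [Finset.card_eq_sum_card_fiberwise (f := fun z : Idx m n → ℤ =>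
    Function.update z (Sum.inr 0) 0) (t := Bx' m n H)]
  · calc _ ≤ ∑ z' ∈ Bx' m n H, (k + 1) * (3 * m) := by
          refine Finset.sum_le_sum fun z' hz' => ?_
          rcases Finset.eq_empty_or_nonempty
            {z ∈ Z | Function.update z (Sum.inr 0) 0 = z'} with he | ⟨z₁, hz₁⟩
          · rw [he]
            simp
          · rw [mem_filter, hZ, mem_filter] at hz₁
            obtain ⟨⟨hz1, hz2, -⟩, hz3⟩ := hz₁
            have hD : Dz h hm0 z' ≠ 0 := by
              rw [← hz3, Dz_update]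
              exact hz2
            have hlast : z' (Sum.inl (Fin.last m)) = z₁ (Sum.inl (Fin.last m)) := by
              rw [← hz3, Function.update_of_ne (by simp)]
            obtain ⟨hp1, -, hp2⟩ := mem_Bx hz1
            have hbd : ∀ i, |z' i| ≤ H := by
              intro i
              rw [← hz3]
              by_cases hi : i = Sum.inr 0
              · subst hi
                simp
              · rw [Function.update_of_ne hi, abs_le]
                exact mem_Icc.1 (hp2 i)
            have hgr := hck H hH1 z' hbd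
            rw [eval_Dg] at hgr
            have hgr' : (Dz h hm0 z').natAbs ≤ c0 * H ^ k := by
              rw [Int.abs_eq_natAbs] at hgr
              exact_mod_cast hgr
            have hPP := card_large_primes (Dz h hm0 z').natAbs H k c0 (Int.natAbs_ne_zero.2 hD)
              hc0 hH1 hgr'
            have hsub : {z ∈ Z | Function.update z (Sum.inr 0) 0 = z'} ⊆
                ({p ∈ (Dz h hm0 z').natAbs.primeFactors | H < p}).biUnion (fun p =>
                  ({t ∈ Icc (-(H : ℤ)) H | (p : ℤ) ∣ rs (Function.update z' (Sum.inr 0) t)}).image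
                    (fun t => Function.update z' (Sum.inr 0) t)) := by
              intro z hz
              rw [mem_filter, hZ, mem_filter] at hz
              obtain ⟨⟨h1, h2, p, h3, h4, h5, h6⟩, h7⟩ := hz
              have h8 : Function.update z' (Sum.inr 0) (z (Sum.inr 0)) = z := by
                rw [← h7, Function.update_idem, Function.update_eq_self]
              rw [mem_biUnion]
              refine ⟨p, ?_, ?_⟩
              · rw [mem_filter, Nat.mem_primeFactors]
                refine ⟨⟨h3, ?_, Int.natAbs_ne_zero.2 hD⟩, h4⟩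
                rw [← h7, Dz_update]
                exact Int.natCast_dvd.1 h6
              · rw [mem_image]
                refine ⟨z (Sum.inr 0), ?_, h8⟩
                rw [mem_filter, h8]
                exact ⟨(mem_Bx h1).2.2 _, h5⟩
            refine (Finset.card_le_card hsub).trans (Finset.card_biUnion_le.trans ?_)
            calc _ ≤ ∑ p ∈ {p ∈ (Dz h hm0 z').natAbs.primeFactors | H < p}, 3 * m := by
                  refine Finset.sum_le_sum fun p hp => ?_
                  rw [mem_filter, Nat.mem_primeFactors] at hp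
                  refine Finset.card_image_le.trans (count_t H p hp.1.1 hp.2 z' ?_ ?_)
                  · rw [hlast]; exact hp1
                  · rw [hlast]; exact (mem_Icc.1 (hp2 _)).2
              _ = #{p ∈ (Dz h hm0 z').natAbs.primeFactors | H < p} * (3 * m) := by
                  rw [Finset.sum_const, smul_eq_mul]
              _ ≤ (k + 1) * (3 * m) := Nat.mul_le_mul_right _ hPP
      _ = (2 * H + 1) ^ (m + n + 1) * ((k + 1) * (3 * m)) := by
          rw [Finset.sum_const, smul_eq_mul, card_Bx']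
      _ ≤ max (max c0 1) ((k + 1) * (3 * m)) * (2 * H + 1) ^ (m + n + 1) := by
          rw [mul_comm]
          exact Nat.mul_le_mul_right _ (le_max_right _ _)
  · intro z hz
    rw [mem_coe, hZ, mem_filter] at hz
    rw [mem_coe, Bx', Fintype.mem_piFinset]
    intro i
    by_cases hi : i = Sum.inr 0
    · subst hi
      simp
    · rw [if_neg hi]
      change Function.update z (Sum.inr 0) 0 i ∈ _
      rw [Function.update_of_ne hi]
      exact (mem_Bx hz.1).2.2 i

open Classical in
theorem card_zero_le (P : MvPolynomial (Idx m n) ℤ) (hP : P ≠ 0) :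
    ∃ c : ℕ, ∀ H : ℕ, #{z ∈ Bx m n H | MvPolynomial.eval z P = 0} ≤
      c * (2 * H + 1) ^ (m + n + 1) := by
  obtain ⟨c, hc⟩ := card_zeros P hP
  refine ⟨c, fun H => ?_⟩
  have h1 := hc (Icc (-(H : ℤ)) H)
  rw [card_Icc', card_Idx] at h1
  have h2 : #{z ∈ Bx m n H | MvPolynomial.eval z P = 0} ≤
      #{z ∈ Fintype.piFinset (fun _ : Idx m n => Icc (-(H : ℤ)) H) |
        MvPolynomial.eval z P = 0} := by
    apply Finset.card_le_card
    intro z hz
    rw [mem_filter] at hz ⊢
    exact ⟨Fintype.mem_piFinset.2 (mem_Bx hz.1).2.2, hz.2⟩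
  have h3 : #{z ∈ Bx m n H | MvPolynomial.eval z P = 0} * (2 * H + 1) ≤
      (c * (2 * H + 1) ^ (m + n + 1)) * (2 * H + 1) := by
    calc _ ≤ _ := Nat.mul_le_mul_right _ h2
      _ ≤ c * (2 * H + 1) ^ (m + n + 2) := h1
      _ = _ := by ring
  exact Nat.le_of_mul_le_mul_right h3 (by omega)

end Pool.Agent.X23.BR
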