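import Pool.Agent.X23.BR.Large
import Pool.Agent.X23.BR.Ints

/-!
# The limit
-/

set_option autoImplicit false

namespace Pool.Agent.X23.BR

open Finset Filter Topology

theorem tendsto_euler : Tendsto (fun y : ℕ => ∏ p ∈ Nat.primesBelow y, (1 - 1 / (p : ℝ) ^ 2) ^ 2)
    atTop (𝓝 (36 / Real.pi ^ 4)) := by
  have h1 := riemannZeta_eulerProduct (s := 2) (by norm_num)
  rw [riemannZeta_two] at h1
  have h2 : Tendsto (fun y : ℕ => ∏ p ∈ Nat.primesBelow y, (1 - 1 / (p : ℝ) ^ 2)⁻¹) atTop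
      (𝓝 (Real.pi ^ 2 / 6)) := by
    rw [← tendsto_ofReal_iff]
    have e : (((Real.pi ^ 2 / 6 : ℝ)) : ℂ) = (Real.pi : ℂ) ^ 2 / 6 := by push_cast; ring
    rw [e]
    refine h1.congr fun y => ?_
    push_cast
    refine Finset.prod_congr rfl fun p _ => ?_
    rw [Complex.cpow_neg, show (2 : ℂ) = ((2 : ℕ) : ℂ) by norm_num, Complex.cpow_natCast, one_div]
  have h3 : (Real.pi ^ 2 / 6 : ℝ) ≠ 0 := by positivity
  have h4 := (h2.inv₀ h3).pow 2
  have e : ((Real.pi ^ 2 / 6 : ℝ)⁻¹) ^ 2 = 36 / Real.pi ^ 4 := by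
    field_simp
    norm_num
  rw [e] at h4
  refine h4.congr fun y => ?_
  rw [← Finset.prod_inv_distrib, ← Finset.prod_pow]
  refine Finset.prod_congr rfl fun p _ => ?_
  rw [inv_inv]

variable {m n : ℕ}

/-- the good classes modulo `p` -/
def Bg (h : 0 < m + n) (p : ℕ) : Set (Idx m n → ZMod p) := {w | ∃ j, wv h w j ≠ 0}

theorem density_good (hm : 2 ≤ m) (hn : 2 ≤ n) (h : 0 < m + n) (p : ℕ) (hp : p.Prime) :
    ((Bg h p : Set (Idx m n → ZMod p)).ncard : ℝ) / (p : ℝ) ^ (m + n + 2) =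
      (1 - 1 / (p : ℝ) ^ 2) ^ 2 := by
  haveI := Fact.mk hp
  have h1 := card_goodvec (K := ZMod p) hm hn h
  rw [ZMod.card] at h1
  have hp0 : (0 : ℝ) < p := by exact_mod_cast hp.pos
  have h2 : ((Bg h p : Set (Idx m n → ZMod p)).ncard : ℝ) + 2 * (p : ℝ) ^ (m + n) =
      (p : ℝ) ^ (m + n + 2) + (p : ℝ) ^ (m + n - 2) := by
    exact_mod_cast h1
  have e1 : (p : ℝ) ^ (m + n + 2) = (p : ℝ) ^ (m + n - 2) * (p : ℝ) ^ 4 := by
    rw [← pow_add]
    congr 1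
    omega
  have e2 : (p : ℝ) ^ (m + n) = (p : ℝ) ^ (m + n - 2) * (p : ℝ) ^ 2 := by
    rw [← pow_add]
    congr 1
    omega
  have h3 : ((Bg h p : Set (Idx m n → ZMod p)).ncard : ℝ) =
      (p : ℝ) ^ (m + n - 2) * ((p : ℝ) ^ 2 - 1) ^ 2 := by
    rw [e1, e2] at h2
    linear_combination h2
  rw [h3, e1]
  have h4 : (p : ℝ) ^ (m + n - 2) ≠ 0 := by positivity
  field_simp

theorem mem_Bg (h : 0 < m + n) (p : ℕ) (z : Idx m n → ℤ) :
    (fun i => ((z i : ℤ) : ZMod p)) ∈ Bg h p ↔ ∃ j, ¬ (p : ℤ) ∣ wv h z j := by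
  unfold Bg
  rw [Set.mem_setOf_eq]
  refine exists_congr fun j => ?_
  have h2 := wv_map (Int.castRingHom (ZMod p)) h z j
  simp only [eq_intCast] at h2
  rw [h2, Ne, ZMod.intCast_zmod_eq_zero_iff_dvd]

open Classical in
/-- all -/
noncomputable def NS (m n H : ℕ) : Finset (Idx m n → ℤ) := {z ∈ Bx m n H | rs z ≠ 0}

open Classical in
/-- the equality cases -/
noncomputable def NE (h : 0 < m + n) (H : ℕ) : Finset (Idx m n → ℤ) :=
  {z ∈ Bx m n H | rs z ≠ 0 ∧ ∀ p : ℕ, p.Prime → ∃ j, ¬ (p : ℤ) ∣ wv h z j}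

open Classical in
/-- good for small primes -/
noncomputable def NY (h : 0 < m + n) (y H : ℕ) : Finset (Idx m n → ℤ) :=
  {z ∈ Bx m n H | ∀ p ∈ Nat.primesBelow y, (fun i => ((z i : ℤ) : ZMod p)) ∈ Bg h p}

theorem tendsto_NY (hm : 2 ≤ m) (hn : 2 ≤ n) (h : 0 < m + n) (y : ℕ) :
    Tendsto (fun H => (#(NY h y H : Finset (Idx m n → ℤ)) : ℝ) / #(Bx m n H)) atTop
      (𝓝 (∏ p ∈ Nat.primesBelow y, (1 - 1 / (p : ℝ) ^ 2) ^ 2)) := by
  have h1 := tendsto_box_primes (lo m n) (hi m n) (fun i H => lo_le_hi i H)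
    (fun i => tendsto_atTop_mono (fun H => le_hi_sub_lo i H) tendsto_natCast_atTop_atTop)
    (Nat.primesBelow y) (fun p hp => Nat.prime_of_mem_primesBelow hp) (fun p => Bg h p)
  have h2 : ∏ p ∈ Nat.primesBelow y, (((Bg h p : Set (Idx m n → ZMod p)).ncard : ℝ) /
      (p : ℝ) ^ Fintype.card (Idx m n)) = ∏ p ∈ Nat.primesBelow y, (1 - 1 / (p : ℝ) ^ 2) ^ 2 := by
    refine Finset.prod_congr rfl fun p hp => ?_
    rw [card_Idx]
    exact density_good hm hn h p (Nat.prime_of_mem_primesBelow hp)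
  rw [h2] at h1
  exact h1

open Classical in
theorem card_NY_le (hm : 2 ≤ m) (hn : 2 ≤ n) (h : 0 < m + n) : ∃ c : ℕ, ∀ y H : ℕ, c ≤ H →
    1 ≤ y → 1 ≤ H → (#(NY h y H : Finset (Idx m n → ℤ)) : ℝ) ≤
      #(NE h H : Finset (Idx m n → ℤ)) +
      4 * (4 * (H : ℝ)) ^ (m + n + 2) / y + c * (2 * (H : ℝ) + 1) ^ (m + n + 1) := by
  have hm0 : 0 < m := by omega
  obtain ⟨c1, hc1⟩ := card_zero_le (rs (gen m n)) (rs_gen_ne hm hn)
  obtain ⟨c2, hc2⟩ := card_zero_le (Dg h hm0) (DD_gen_ne hm hn h)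
  obtain ⟨c3, hc3⟩ := card_large hm hn h hm0
  refine ⟨c1 + c2 + c3, fun y H hH hy hH1 => ?_⟩
  set M : Finset (Idx m n → ℤ) := (Finset.Ioo (y - 1) (H + 1)).biUnion (fun p =>
    if p.Prime then {z ∈ Bx m n H | ∀ j, (p : ℤ) ∣ wv h z j} else ∅) with hM
  have hsub : (NY h y H : Finset (Idx m n → ℤ)) ⊆ NE h H ∪ M ∪
      ({z ∈ Bx m n H | MvPolynomial.eval z (rs (gen m n)) = 0} ∪
      {z ∈ Bx m n H | MvPolynomial.eval z (Dg h hm0) = 0} ∪
      {z ∈ Bx m n H | Dz h hm0 z ≠ 0 ∧ ∃ p : ℕ, p.Prime ∧ H < p ∧ (p : ℤ) ∣ rs z ∧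
        (p : ℤ) ∣ Dz h hm0 z}) := by
    intro z hz
    rw [NY, mem_filter] at hz
    obtain ⟨hz1, hz2⟩ := hz
    simp only [mem_union, mem_filter, eval_rs, eval_Dg]
    by_cases h1 : rs z = 0
    · exact Or.inr (Or.inl (Or.inl ⟨hz1, h1⟩))
    by_cases h2 : ∀ p : ℕ, p.Prime → ∃ j, ¬ (p : ℤ) ∣ wv h z j
    · left; left
      rw [NE, mem_filter]
      exact ⟨hz1, h1, h2⟩
    push Not at h2
    obtain ⟨p, hp, hpj⟩ := h2
    have hyp : y ≤ p := by
      by_contra hcon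
      push Not at hcon
      have h3 := hz2 p (Nat.mem_primesBelow.2 ⟨hcon, hp⟩)
      rw [mem_Bg] at h3
      obtain ⟨j, hj⟩ := h3
      exact hj (hpj j)
    by_cases hpH : p ≤ H
    · left; right
      rw [hM, mem_biUnion]
      refine ⟨p, ?_, ?_⟩
      · rw [mem_Ioo]; omega
      · rw [if_pos hp, mem_filter]
        exact ⟨hz1, hpj⟩
    · right
      by_cases h3 : Dz h hm0 z = 0
      · exact Or.inl (Or.inr ⟨hz1, h3⟩)
      · right
        refine ⟨hz1, h3, p, hp, by omega, dvd_rs h z p hpj, ?_⟩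
        exact dvd_DD h hm0 _ z p (dvd_rs h z p hpj) (hpj _)
  have h1 := (Finset.card_le_card hsub).trans ((Finset.card_union_le _ _).trans
    (add_le_add (Finset.card_union_le _ _) ((Finset.card_union_le _ _).trans
      (add_le_add (Finset.card_union_le _ _) le_rfl))))
  have h2 := hc1 H
  have h3 := hc2 H
  have h4 := hc3 H (by omega)
  have h5 : (#M : ℝ) ≤ 4 * (4 * (H : ℝ)) ^ (m + n + 2) / y := by
    have e1 : (#M : ℝ) ≤ ∑ p ∈ Finset.Ioo (y - 1) (H + 1),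
        2 * (4 * (H : ℝ)) ^ (m + n + 2) * ((p : ℝ) ^ 2)⁻¹ := by
      have e2 : (#M : ℝ) ≤ ∑ p ∈ Finset.Ioo (y - 1) (H + 1), (#(if p.Prime then
          {z ∈ Bx m n H | ∀ j, (p : ℤ) ∣ wv h z j} else ∅) : ℝ) := by
        exact_mod_cast Finset.card_biUnion_le
      refine e2.trans (Finset.sum_le_sum fun p hp => ?_)
      rw [mem_Ioo] at hp
      split_ifs with hpp
      · have := card_middle hm hn h H p hpp (by omega)
        rwa [div_eq_mul_inv] at this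
      · rw [Finset.card_empty, Nat.cast_zero]
        positivity
    rw [← Finset.mul_sum] at e1
    have e3 := sum_Ioo_inv_sq_le (α := ℝ) (y - 1) (H + 1)
    have e4 : (((y - 1 : ℕ) : ℝ) + 1) = y := by
      have : (y - 1) + 1 = y := by omega
      exact_mod_cast this
    rw [e4] at e3
    calc (#M : ℝ) ≤ _ := e1
      _ ≤ 2 * (4 * (H : ℝ)) ^ (m + n + 2) * (2 / y) := by gcongr
      _ = _ := by ring
  have h6 : (#(NY h y H : Finset (Idx m n → ℤ)) : ℝ) ≤ #(NE h H : Finset (Idx m n → ℤ)) + #M +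
      (c1 * (2 * (H : ℝ) + 1) ^ (m + n + 1) + c2 * (2 * (H : ℝ) + 1) ^ (m + n + 1) +
        c3 * (2 * (H : ℝ) + 1) ^ (m + n + 1)) := by
    have e1 : #(NY h y H : Finset (Idx m n → ℤ)) ≤ #(NE h H : Finset (Idx m n → ℤ)) + #M +
      (c1 * (2 * H + 1) ^ (m + n + 1) + c2 * (2 * H + 1) ^ (m + n + 1) +
        c3 * (2 * H + 1) ^ (m + n + 1)) := by
      refine h1.trans ?_
      gcongr
    exact_mod_cast e1
  push_cast
  linarith

end Pool.Agent.X23.BR
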