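import Pool.Agent.X23.BR.Limit

/-!
# The proportion
-/

set_option autoImplicit false

namespace Pool.Agent.X23.BR

open Finset Filter Topology

variable {m n : ℕ}

theorem tot_pos {H : ℕ} (hH : 1 ≤ H) : (0 : ℝ) < #(Bx m n H) := by
  have h1 := card_Bx_ge (m := m) (n := n) H
  have h2 : (0 : ℝ) < (H : ℝ) ^ (m + n + 2) := by
    have : (0 : ℝ) < H := by exact_mod_cast hH
    positivity
  linarith

theorem err_le {H : ℕ} (hH : 1 ≤ H) (c : ℝ) (hc : 0 ≤ c) :
    c * (2 * (H : ℝ) + 1) ^ (m + n + 1) / #(Bx m n H) ≤ c * 3 ^ (m + n + 1) * (1 / (H : ℝ)) := by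
  have hH0 : (0 : ℝ) < H := by exact_mod_cast hH
  have hH1 : (1 : ℝ) ≤ H := by exact_mod_cast hH
  rw [div_le_iff₀ (tot_pos hH)]
  calc c * (2 * (H : ℝ) + 1) ^ (m + n + 1) ≤ c * (3 * (H : ℝ)) ^ (m + n + 1) := by
        gcongr
        linarith
    _ = c * 3 ^ (m + n + 1) * (1 / (H : ℝ)) * (H : ℝ) ^ (m + n + 2) := by
        rw [mul_pow, pow_succ (H : ℝ) (m + n + 1)]
        field_simp
    _ ≤ _ := by
        gcongr
        exact card_Bx_ge H

theorem mid_le {H y : ℕ} (hH : 1 ≤ H) (hy : 1 ≤ y) :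
    4 * (4 * (H : ℝ)) ^ (m + n + 2) / y / #(Bx m n H) ≤ 4 * 4 ^ (m + n + 2) / y := by
  have hy0 : (0 : ℝ) < y := by exact_mod_cast hy
  rw [div_le_iff₀ (tot_pos hH), mul_pow]
  calc 4 * (4 ^ (m + n + 2) * (H : ℝ) ^ (m + n + 2)) / y
      = 4 * 4 ^ (m + n + 2) / y * (H : ℝ) ^ (m + n + 2) := by ring
    _ ≤ _ := by
        gcongr
        exact card_Bx_ge H

theorem tendsto_err (c : ℝ) : Tendsto (fun H : ℕ => c * (1 / (H : ℝ))) atTop (𝓝 0) := by
  have := (tendsto_one_div_atTop_nhds_zero_nat (𝕜 := ℝ)).const_mul c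
  simpa using this

theorem tendsto_NE (hm : 2 ≤ m) (hn : 2 ≤ n) (h : 0 < m + n) :
    Tendsto (fun H => (#(NE h H : Finset (Idx m n → ℤ)) : ℝ) / #(Bx m n H)) atTop
      (𝓝 (36 / Real.pi ^ 4)) := by
  obtain ⟨c, hc⟩ := card_NY_le hm hn h
  rw [Metric.tendsto_atTop]
  intro ε hε
  -- choose `y`
  have h1 := tendsto_euler
  rw [Metric.tendsto_atTop] at h1
  obtain ⟨y1, hy1⟩ := h1 (ε / 4) (by positivity)
  obtain ⟨y2, hy2⟩ := exists_nat_gt (4 * 4 ^ (m + n + 2) / (ε / 4))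
  set y := max (max y1 y2) 1 with hy
  have hyy : 1 ≤ y := le_max_right _ _
  have hy0 : (0 : ℝ) < y := by exact_mod_cast hyy
  have e1 := hy1 y ((le_max_left _ _).trans (le_max_left _ _))
  have e2 : (4 : ℝ) * 4 ^ (m + n + 2) / y < ε / 4 := by
    have h3 : (y2 : ℝ) ≤ y := by exact_mod_cast (le_max_right y1 y2).trans (le_max_left _ 1)
    have h4 := hy2.trans_le h3
    rw [div_lt_iff₀ (by positivity)] at h4
    rw [div_lt_iff₀ hy0]
    linarith
  have h2 := tendsto_NY hm hn h y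
  rw [Metric.tendsto_atTop] at h2
  obtain ⟨H1, hH1⟩ := h2 (ε / 4) (by positivity)
  have h3 := tendsto_err (c * 3 ^ (m + n + 1))
  rw [Metric.tendsto_atTop] at h3
  obtain ⟨H2, hH2⟩ := h3 (ε / 4) (by positivity)
  refine ⟨max (max H1 H2) (max c 1), fun H hH => ?_⟩
  have hHc : c ≤ H := (le_max_left _ _).trans ((le_max_right _ _).trans hH)
  have hHone : 1 ≤ H := (le_max_right _ _).trans ((le_max_right _ _).trans hH)
  have e3 := hH1 H ((le_max_left _ _).trans ((le_max_left _ _).trans hH))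
  have e4 := hH2 H ((le_max_right _ _).trans ((le_max_left _ _).trans hH))
  have e5 := hc y H hHc hyy hHone
  have hT := tot_pos (m := m) (n := n) hHone
  have e6 : (#(NE h H : Finset (Idx m n → ℤ)) : ℝ) / #(Bx m n H) ≤
      (#(NY h y H : Finset (Idx m n → ℤ)) : ℝ) / #(Bx m n H) := by
    gcongr
    intro z hz
    classical
    rw [NE, mem_filter] at hz
    rw [NY, mem_filter]
    refine ⟨hz.1, fun p hp => ?_⟩
    rw [mem_Bg]
    exact hz.2.2 p (Nat.prime_of_mem_primesBelow hp)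
  have e7 : (#(NY h y H : Finset (Idx m n → ℤ)) : ℝ) / #(Bx m n H) ≤
      (#(NE h H : Finset (Idx m n → ℤ)) : ℝ) / #(Bx m n H) +
      4 * 4 ^ (m + n + 2) / y + c * 3 ^ (m + n + 1) * (1 / (H : ℝ)) := by
    have h5 := div_le_div_of_nonneg_right e5 hT.le
    rw [add_div, add_div] at h5
    have h6 := mid_le (m := m) (n := n) hHone hyy
    have h7 := err_le (m := m) (n := n) hHone (c : ℝ) (by positivity)
    linarith
  rw [Real.dist_eq, abs_lt] at e1 e3 e4 ⊢
  constructor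
  · linarith [e1.1, e1.2, e3.1, e3.2, e4.1, e4.2]
  · linarith [e1.1, e1.2, e3.1, e3.2, e4.1, e4.2]

theorem tendsto_NS (hm : 2 ≤ m) (hn : 2 ≤ n) :
    Tendsto (fun H => (#(NS m n H) : ℝ) / #(Bx m n H)) atTop (𝓝 1) := by
  classical
  obtain ⟨c, hc⟩ := card_zero_le (rs (gen m n)) (rs_gen_ne hm hn)
  have h3 := tendsto_err (c * 3 ^ (m + n + 1))
  have h4 : Tendsto (fun H : ℕ => 1 - c * 3 ^ (m + n + 1) * (1 / (H : ℝ))) atTop (𝓝 1) := by
    simpa using h3.const_sub 1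
  refine tendsto_of_tendsto_of_tendsto_of_le_of_le' h4 tendsto_const_nhds ?_ ?_
  · filter_upwards [eventually_ge_atTop 1] with H hH
    have hT := tot_pos (m := m) (n := n) hH
    have h5 := Finset.card_filter_add_card_filter_not (s := Bx m n H) (fun z => rs z ≠ 0)
    have h6 : (#(NS m n H) : ℝ) + #{z ∈ Bx m n H | MvPolynomial.eval z (rs (gen m n)) = 0} =
        #(Bx m n H) := by
      have : #(NS m n H) + #{z ∈ Bx m n H | MvPolynomial.eval z (rs (gen m n)) = 0} =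
          #(Bx m n H) := by
        rw [← h5]
        congr 2
        · apply Finset.filter_congr
          intro z _
          rw [eval_rs, not_not]
      exact_mod_cast this
    have h7 : (#{z ∈ Bx m n H | MvPolynomial.eval z (rs (gen m n)) = 0} : ℝ) ≤
        c * (2 * (H : ℝ) + 1) ^ (m + n + 1) := by exact_mod_cast hc H
    have h8 := err_le (m := m) (n := n) hH (c : ℝ) (by positivity)
    have h9 : (#(NS m n H) : ℝ) / #(Bx m n H) =
        1 - (#{z ∈ Bx m n H | MvPolynomial.eval z (rs (gen m n)) = 0} : ℝ) / #(Bx m n H) := by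
      rw [eq_sub_iff_add_eq, ← add_div, h6, div_self hT.ne']
    rw [h9]
    have h10 := div_le_div_of_nonneg_right h7 hT.le
    linarith
  · filter_upwards [eventually_ge_atTop 1] with H hH
    rw [div_le_one (tot_pos hH)]
    exact_mod_cast Finset.card_filter_le _ _

theorem tendsto_ratio (hm : 2 ≤ m) (hn : 2 ≤ n) (h : 0 < m + n) :
    Tendsto (fun H => (#(NE h H : Finset (Idx m n → ℤ)) : ℝ) / #(NS m n H)) atTop
      (𝓝 (36 / Real.pi ^ 4)) := by
  have h1 := (tendsto_NE hm hn h).div (tendsto_NS hm hn) one_ne_zero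
  rw [div_one] at h1
  refine h1.congr' ?_
  filter_upwards [eventually_ge_atTop 1] with H hH
  have hT := tot_pos (m := m) (n := n) hH
  simp only [Pi.div_apply]
  rw [div_div_div_cancel_right₀ hT.ne']

/-- The set `P_k(H)` of integer polynomials of exact degree `k`, with positive leading coefficient
and all coefficients in `[-H, H]`. -/
def PolyBox (k H : ℕ) : Set (Polynomial ℤ) :=
  {f | f.natDegree = k ∧ 0 < f.leadingCoeff ∧ ∀ i, |f.coeff i| ≤ H}

/-- coprime pairs -/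
def SPairs (m n H : ℕ) : Set (Polynomial ℤ × Polynomial ℤ) :=
  {x | x.1 ∈ PolyBox m H ∧ x.2 ∈ PolyBox n H ∧ NoCommonRoot x.1 x.2}

/-- pairs with equality -/
def EPairs (m n H : ℕ) : Set (Polynomial ℤ × Polynomial ℤ) :=
  {x | x ∈ SPairs m n H ∧ BezDen x.1 x.2 = AbsRes x.1 x.2}

theorem poly_mem {k H : ℕ} (c : Fin (k + 1) → ℤ) (hc : 0 < c (Fin.last k))
    (hb : ∀ i, c i ∈ Icc (-(H : ℤ)) H) : poly k c ∈ PolyBox k H := by
  have h1 : (poly k c).coeff k = c (Fin.last k) := coeff_poly k c (Fin.last k)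
  have h2 : (poly k c).natDegree = k :=
    le_antisymm (natDegree_poly k c) (Polynomial.le_natDegree_of_ne_zero (by rw [h1]; omega))
  refine ⟨h2, ?_, fun i => ?_⟩
  · rw [Polynomial.leadingCoeff, h2, h1]
    exact hc
  · by_cases hi : i < k + 1
    · have := coeff_poly k c ⟨i, hi⟩
      simp only at this
      rw [this, abs_le]
      exact mem_Icc.1 (hb _)
    · rw [Polynomial.coeff_eq_zero_of_natDegree_lt (by omega)]
      simp

theorem FG_mem {H : ℕ} {z : Idx m n → ℤ} (hz : z ∈ Bx m n H) :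
    FF z ∈ PolyBox m H ∧ GG z ∈ PolyBox n H := by
  obtain ⟨h1, h2, h3⟩ := mem_Bx hz
  exact ⟨poly_mem _ h1 fun i => h3 _, poly_mem _ h2 fun i => h3 _⟩

theorem vec_mem {H : ℕ} {x : Polynomial ℤ × Polynomial ℤ} (h1 : x.1 ∈ PolyBox m H)
    (h2 : x.2 ∈ PolyBox n H) : vecFG m n x ∈ Bx m n H := by
  rw [mem_Bx_iff]
  refine ⟨?_, ?_, fun i => ?_⟩
  · have := h1.2.1
    rw [Polynomial.leadingCoeff, h1.1] at this
    simpa [vecFG] using this
  · have := h2.2.1
    rw [Polynomial.leadingCoeff, h2.1] at this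
    simpa [vecFG] using this
  · rw [mem_Icc, ← abs_le]
    rcases i with i | i
    · exact h1.2.2 _
    · exact h2.2.2 _

theorem ncard_SPairs (hm : 0 < m) (hn : 0 < n) (H : ℕ) : (SPairs m n H).ncard = #(NS m n H) := by
  classical
  rw [← Set.ncard_coe_finset]
  symm
  apply Set.ncard_congr (fun z _ => (FF z, GG z))
  · intro z hz
    rw [mem_coe, NS, mem_filter] at hz
    obtain ⟨h1, h2⟩ := FG_mem hz.1
    exact ⟨h1, h2, (noCommonRoot_iff h1.1 h2.1 hm hn).2 hz.2⟩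
  · intro z z' _ _ he
    rw [← vecFG_FG z, ← vecFG_FG z', he]
  · intro x hx
    obtain ⟨h1, h2, h3⟩ := hx
    have e1 : FF (vecFG m n x) = x.1 := FF_vecFG h1.1.le
    have e2 : GG (vecFG m n x) = x.2 := GG_vecFG h2.1.le
    refine ⟨vecFG m n x, ?_, ?_⟩
    · rw [mem_coe, NS, mem_filter]
      refine ⟨vec_mem h1 h2, ?_⟩
      unfold rs
      rw [e1, e2]
      exact (noCommonRoot_iff h1.1 h2.1 hm hn).1 h3
    · rw [e1, e2]

theorem ncard_EPairs (hm : 0 < m) (hn : 0 < n) (h : 0 < m + n) (H : ℕ) :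
    (EPairs m n H).ncard = #(NE h H : Finset (Idx m n → ℤ)) := by
  classical
  rw [← Set.ncard_coe_finset]
  symm
  apply Set.ncard_congr (fun z _ => (FF z, GG z))
  · intro z hz
    rw [mem_coe, NE, mem_filter] at hz
    obtain ⟨h1, h2⟩ := FG_mem hz.1
    exact ⟨⟨h1, h2, (noCommonRoot_iff h1.1 h2.1 hm hn).2 hz.2.1⟩,
      (bezDen_eq_iff h1.1 h2.1 hm hn hz.2.1 h).2 hz.2.2⟩
  · intro z z' _ _ he
    rw [← vecFG_FG z, ← vecFG_FG z', he]
  · intro x hx
    obtain ⟨⟨h1, h2, h3⟩, h4⟩ := hx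
    have e1 : FF (vecFG m n x) = x.1 := FF_vecFG h1.1.le
    have e2 : GG (vecFG m n x) = x.2 := GG_vecFG h2.1.le
    have hR := (noCommonRoot_iff h1.1 h2.1 hm hn).1 h3
    refine ⟨vecFG m n x, ?_, ?_⟩
    · rw [mem_coe, NE, mem_filter]
      refine ⟨vec_mem h1 h2, ?_, ?_⟩
      · unfold rs
        rw [e1, e2]
        exact hR
      · unfold wv
        rw [e1, e2]
        exact (bezDen_eq_iff h1.1 h2.1 hm hn hR h).1 h4
    · rw [e1, e2]

theorem limit_lt : 36 / Real.pi ^ 4 < 1 / 2 := by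
  have h1 : (3.14 : ℝ) < Real.pi := Real.pi_gt_d2
  have h2 : (3.14 : ℝ) ^ 4 < Real.pi ^ 4 := by gcongr
  rw [div_lt_div_iff₀ (by positivity) (by norm_num)]
  norm_num at h2
  linarith

end Pool.Agent.X23.BR
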