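import Pool.Agent.X23.BR.Gen

/-!
# The eliminant does not vanish identically
-/

set_option autoImplicit false

namespace Pool.Agent.X23.BR

open Polynomial Matrix Finset

/-- the index of the top coefficient -/
def topIdx (m n : ℕ) (hm : 0 < m) : Fin (m + n) := Fin.castAdd n ⟨m - 1, by omega⟩

/-- the special polynomial -/
noncomputable def f0 (m : ℕ) : ℂ[X] := ∏ i ∈ Finset.range m, (X - C ((i : ℂ) + 1))

theorem f0_monic (m : ℕ) : (f0 m).Monic := monic_prod_of_monic _ _ fun i _ => monic_X_sub_C _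

theorem f0_natDegree (m : ℕ) : (f0 m).natDegree = m := by
  unfold f0
  rw [natDegree_prod_of_monic _ _ fun i _ => monic_X_sub_C _]
  simp only [natDegree_X_sub_C, Finset.sum_const, Finset.card_range, smul_eq_mul, mul_one]

theorem f0_root (m : ℕ) (i : ℕ) (hi : i < m) : (f0 m).eval ((i : ℂ) + 1) = 0 := by
  unfold f0
  rw [eval_prod]
  apply Finset.prod_eq_zero (Finset.mem_range.2 hi)
  simp

theorem f0_eval_zero (m : ℕ) : (f0 m).eval 0 ≠ 0 := by
  unfold f0
  rw [eval_prod, Finset.prod_ne_zero_iff]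
  intro i _
  have : ((i : ℂ) + 1) ≠ 0 := by exact_mod_cast Nat.succ_ne_zero i
  simpa [sub_eq_add_neg, add_comm] using fun h => this (by linear_combination (-1 : ℂ) * h)

/-- the special point -/
noncomputable def z0 (m n : ℕ) : Idx m n → ℂ := vecFG m n (f0 m, (X : ℂ[X]))

theorem z0_update (m n : ℕ) (t : ℂ) :
    Function.update (z0 m n) (Sum.inr 0) t = vecFG m n (f0 m, (X + C t : ℂ[X])) := by
  funext i
  by_cases hi : i = Sum.inr 0
  · subst hi
    simp [vecFG]
  · rw [Function.update_of_ne hi]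
    rcases i with i | i
    · simp [z0, vecFG]
    · have h0 : (i : ℕ) ≠ 0 := by
        intro h1
        exact hi (by rw [show i = 0 from Fin.ext h1])
      simp only [z0, vecFG, Sum.elim_inr, coeff_add]
      rw [coeff_C, if_neg h0, add_zero]

variable {m n : ℕ}

theorem FF_z0 (t : ℂ) : FF (Function.update (z0 m n) (Sum.inr 0) t) = f0 m := by
  rw [z0_update, FF_vecFG (by simp [f0_natDegree])]

theorem GG_z0 (hn : 2 ≤ n) (t : ℂ) :
    GG (Function.update (z0 m n) (Sum.inr 0) t) = X + C t := by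
  rw [z0_update, GG_vecFG (by simp only [natDegree_X_add_C]; omega)]

theorem f0_coeff (m : ℕ) : (f0 m).coeff m ≠ 0 := by
  have := (f0_monic m).coeff_natDegree
  rw [f0_natDegree] at this
  rw [this]
  exact one_ne_zero

theorem AA_z0_zero (hm : 2 ≤ m) (hn : 2 ≤ n) : (AA (z0 m n)).eval 0 ≠ 0 := by
  rw [eval_AA]
  unfold rs
  rw [FF_z0, GG_z0 hn]
  apply res_ne_zero (f0_natDegree m).le (by simp only [natDegree_X_add_C]; omega)
    (Or.inl (f0_coeff m))
  rw [isCoprime_iff_aeval_ne_zero_of_isAlgClosed (k := ℂ) (K := ℂ)]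
  intro a
  by_cases ha : a = 0
  · left
    rw [ha, coe_aeval_eq_eval]
    exact f0_eval_zero m
  · right
    simpa using ha

theorem AA_z0_root (hm : 2 ≤ m) (hn : 2 ≤ n) (i : ℕ) (hi : i < m) :
    (AA (z0 m n)).eval (-((i : ℂ) + 1)) = 0 := by
  rw [eval_AA]
  unfold rs
  rw [FF_z0, GG_z0 hn]
  have hb := bezout_vv (f0 m) (X + C (-((i : ℂ) + 1))) (f0_natDegree m).le
    (by simp only [natDegree_X_add_C]; omega : (X + C (-((i : ℂ) + 1)) : ℂ[X]).natDegree ≤ n)
    (by omega : 0 < m + n)
  have h3 := congrArg (eval ((i : ℂ) + 1)) hb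
  rw [eval_add, eval_mul, eval_mul, f0_root m i hi] at h3
  simp only [eval_add, eval_X, eval_C, eval_neg, zero_mul, zero_add] at h3
  rw [← h3]
  ring

theorem AA_z0_coeff (hm : 2 ≤ m) (hn : 2 ≤ n) : (AA (z0 m n)).coeff m ≠ 0 := by
  have h0 : AA (z0 m n) ≠ 0 := by
    intro h
    have := AA_z0_zero hm hn
    rw [h] at this
    simp at this
  have h1 : ((Finset.range m).image (fun i : ℕ => -((i : ℂ) + 1))) ⊆
      (AA (z0 m n)).roots.toFinset := by
    intro x hx
    obtain ⟨i, hi, rfl⟩ := Finset.mem_image.1 hx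
    rw [Multiset.mem_toFinset, mem_roots h0]
    exact AA_z0_root hm hn i (Finset.mem_range.1 hi)
  have h2 := Finset.card_le_card h1
  rw [Finset.card_image_of_injective, Finset.card_range] at h2
  · have h3 := (AA (z0 m n)).roots.toFinset_card_le
    have h4 := card_roots' (AA (z0 m n))
    have h5 := natDegree_AA (z0 m n)
    have h6 : (AA (z0 m n)).natDegree = m := by omega
    intro h7
    apply h0
    rw [← leadingCoeff_eq_zero, leadingCoeff, h6, h7]
  · intro a b hab
    simp only [neg_inj, add_left_inj, Nat.cast_inj] at hab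
    exact hab

theorem VV_z0 (hm : 2 ≤ m) (hn : 2 ≤ n) (h : 0 < m + n) (t : ℂ)
    (ht : (AA (z0 m n)).eval t = 0) : (VV h (topIdx m n (by omega)) (z0 m n)).eval t ≠ 0 := by
  rw [eval_AA] at ht
  unfold rs at ht
  rw [FF_z0, GG_z0 hn] at ht
  rw [eval_VV]
  unfold wv
  rw [FF_z0, GG_z0 hn]
  have hc : ¬ IsCoprime (f0 m) (X + C t) := by
    intro hc
    exact res_ne_zero (f0_natDegree m).le (by simp only [natDegree_X_add_C]; omega)
      (Or.inl (f0_coeff m)) hc ht
  rw [isCoprime_iff_aeval_ne_zero_of_isAlgClosed (k := ℂ) (K := ℂ)] at hc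
  push Not at hc
  obtain ⟨a, ha1, ha2⟩ := hc
  rw [coe_aeval_eq_eval] at ha1 ha2
  simp only [eval_add, eval_X, eval_C] at ha2
  have hat : a = -t := by linear_combination ha2
  subst hat
  obtain ⟨f₁, hf₁⟩ := dvd_iff_isRoot.2 ha1
  rw [C_neg, sub_neg_eq_add] at hf₁
  have hd : Dec (f0 m) (X + C t) (X + C t) f₁ 1 :=
    ⟨monic_X_add_C t, isCoprime_one_right, hf₁, by rw [mul_one]⟩
  exact vv_top_ne_zero (f0_natDegree m).le (by simp only [natDegree_X_add_C]; omega) h (by omega)
    (f0_coeff m) hd (natDegree_X_add_C t)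

theorem DD_z0 (hm : 2 ≤ m) (hn : 2 ≤ n) (h : 0 < m + n) :
    DD h (topIdx m n (by omega)) (dV h (topIdx m n (by omega))) (z0 m n) ≠ 0 := by
  unfold DD
  apply res_ne_zero (natDegree_AA _) (natDegree_VV_le h _ _) (Or.inl (AA_z0_coeff hm hn))
  rw [isCoprime_iff_aeval_ne_zero_of_isAlgClosed (k := ℂ) (K := ℂ)]
  intro a
  by_cases ha : (AA (z0 m n)).eval a = 0
  · right
    rw [coe_aeval_eq_eval]
    exact VV_z0 hm hn h a ha
  · left
    rw [coe_aeval_eq_eval]
    exact ha

theorem DD_gen_ne (hm : 2 ≤ m) (hn : 2 ≤ n) (h : 0 < m + n) :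
    DD h (topIdx m n (by omega)) (dV h (topIdx m n (by omega))) (gen m n) ≠ 0 := by
  intro h0
  apply DD_z0 hm hn h
  have h1 : z0 m n = fun i => (MvPolynomial.eval₂Hom (Int.castRingHom ℂ) (z0 m n)) (gen m n i) := by
    funext i
    simp [gen]
  rw [h1, DD_map, h0, map_zero]

theorem rs_gen_ne (hm : 2 ≤ m) (hn : 2 ≤ n) : rs (gen m n) ≠ 0 := by
  intro h0
  have h2 := AA_z0_zero hm hn
  rw [eval_AA] at h2
  apply h2
  have h1 : Function.update (z0 m n) (Sum.inr 0) 0 = fun i =>
      (MvPolynomial.eval₂Hom (Int.castRingHom ℂ) (Function.update (z0 m n) (Sum.inr 0) 0))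
        (gen m n i) := by
    funext i
    simp [gen]
  rw [h1, rs_map, h0, map_zero]

/-- The number of values of `b₀` with vanishing resultant is at most `m`. -/
theorem card_roots_b0 {K : Type*} [Field K] (w : Idx m n → K) (hw : w (Sum.inl (Fin.last m)) ≠ 0)
    (T : Finset K) (hT : ∀ t ∈ T, rs (Function.update w (Sum.inr 0) t) = 0) : #T ≤ m := by
  classical
  have hF : ∀ t, FF (Function.update w (Sum.inr 0) t) = FF w := by
    intro t
    unfold FF
    congr 1
  have hG : ∀ t, GG (Function.update w (Sum.inr 0) t) =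
      GG (Function.update w (Sum.inr 0) 0) + C t := by
    intro t
    unfold GG poly
    rw [Fin.sum_univ_succ, Fin.sum_univ_succ]
    simp only [Function.update_self, Fin.val_zero, pow_zero, mul_one, C_0, zero_add]
    rw [add_comm]
    congr 1
  set L := AlgebraicClosure K with hL
  have hlead : (FF w).coeff m ≠ 0 := by rw [coeff_FF_top]; exact hw
  have hF0 : FF w ≠ 0 := by rintro h; rw [h] at hlead; simp at hlead
  have hF0' : (FF w).map (algebraMap K L) ≠ 0 := (Polynomial.map_ne_zero_iff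
    (algebraMap K L).injective).2 hF0
  set g0 := (GG (Function.update w (Sum.inr 0) 0)).map (algebraMap K L) with hg0
  have h1 : T.image (algebraMap K L) ⊆
      ((FF w).map (algebraMap K L)).roots.toFinset.image (fun a => - g0.eval a) := by
    intro x hx
    obtain ⟨t, ht, rfl⟩ := Finset.mem_image.1 hx
    have h2 := hT t ht
    unfold rs at h2
    have h3 : ¬ IsCoprime (FF w) (GG (Function.update w (Sum.inr 0) t)) := by
      intro hc
      rw [hF] at h2
      exact res_ne_zero (natDegree_FF w) (natDegree_GG _) (Or.inl hlead) hc h2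
    rw [isCoprime_iff_aeval_ne_zero_of_isAlgClosed (k := K) (K := L)] at h3
    push Not at h3
    obtain ⟨a, ha1, ha2⟩ := h3
    refine Finset.mem_image.2 ⟨a, ?_, ?_⟩
    · rw [Multiset.mem_toFinset, mem_roots hF0', IsRoot.def, eval_map_algebraMap]
      exact ha1
    · rw [hG, map_add, aeval_C] at ha2
      rw [hg0, eval_map_algebraMap]
      linear_combination (-1 : L) * ha2
  have h2 := Finset.card_le_card h1
  rw [Finset.card_image_of_injective _ (algebraMap K L).injective] at h2
  refine h2.trans (Finset.card_image_le.trans ((Multiset.toFinset_card_le _).trans ?_))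
  refine (card_roots' _).trans ?_
  exact natDegree_map_le.trans (natDegree_FF w)

end Pool.Agent.X23.BR
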