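import Mathlib

/-!
# Equidistribution modulo finitely many primes
-/

set_option autoImplicit false

namespace Pool.Agent.X23.BR

open Finset Filter Topology

theorem count_mod (Q : ℕ) (hQ : 0 < Q) (l u : ℤ) (h : l ≤ u) (w : ZMod Q) :
    |(#{x ∈ Ioc l u | ((x : ℤ) : ZMod Q) = w} : ℝ) - ((u : ℝ) - l) / Q| ≤ 1 := by
  obtain ⟨v, rfl⟩ := ZMod.intCast_surjective w
  have h1 : ({x ∈ Ioc l u | ((x : ℤ) : ZMod Q) = (v : ZMod Q)} : Finset ℤ) =
      {x ∈ Ioc l u | x ≡ v [ZMOD (Q : ℤ)]} := by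
    ext x
    simp only [mem_filter, ZMod.intCast_eq_intCast_iff]
  rw [h1]
  have h2 := Int.Ioc_filter_modEq_card l u (r := (Q : ℤ)) (by exact_mod_cast hQ) v
  have hQ' : (0 : ℚ) < (Q : ℚ) := by exact_mod_cast hQ
  have h3 : (⌊((l : ℚ) - v) / ((Q : ℤ) : ℚ)⌋ : ℤ) ≤ ⌊((u : ℚ) - v) / ((Q : ℤ) : ℚ)⌋ := by
    apply Int.floor_le_floor
    have : (l : ℚ) ≤ u := by exact_mod_cast h
    push_cast
    gcongr
  rw [max_eq_left (by linarith)] at h2
  have h4 : ((#{x ∈ Ioc l u | x ≡ v [ZMOD (Q : ℤ)]} : ℤ) : ℚ) =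
      ((⌊((u : ℚ) - v) / ((Q : ℤ) : ℚ)⌋ - ⌊((l : ℚ) - v) / ((Q : ℤ) : ℚ)⌋ : ℤ) : ℚ) := by
    exact_mod_cast congrArg (Int.cast (R := ℚ)) h2
  push_cast at h4
  have h5 := Int.floor_le (((u : ℚ) - v) / (Q : ℚ))
  have h6 := Int.lt_floor_add_one (((u : ℚ) - v) / (Q : ℚ))
  have h7 := Int.floor_le (((l : ℚ) - v) / (Q : ℚ))
  have h8 := Int.lt_floor_add_one (((l : ℚ) - v) / (Q : ℚ))
  have h9 : ((u : ℚ) - v) / Q - ((l : ℚ) - v) / Q = ((u : ℚ) - l) / Q := by ring
  have key : |(#{x ∈ Ioc l u | x ≡ v [ZMOD (Q : ℤ)]} : ℚ) - ((u : ℚ) - l) / Q| ≤ 1 := by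
    rw [h4, abs_le]
    constructor <;> linarith
  have key' := (Rat.cast_le (K := ℝ)).2 key
  simpa only [Rat.cast_abs, Rat.cast_sub, Rat.cast_div, Rat.cast_natCast, Rat.cast_intCast,
    Rat.cast_one] using key'

theorem tendsto_count_mod (Q : ℕ) (hQ : 0 < Q) (l u : ℕ → ℤ)
    (h : ∀ H, l H ≤ u H) (hlim : Tendsto (fun H => ((u H : ℝ) - l H)) atTop atTop) (w : ZMod Q) :
    Tendsto (fun H => (#{x ∈ Ioc (l H) (u H) | ((x : ℤ) : ZMod Q) = w} : ℝ) /
      (#(Ioc (l H) (u H)) : ℝ)) atTop (𝓝 (1 / (Q : ℝ))) := by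
  have h1 : ∀ H, (#(Ioc (l H) (u H)) : ℝ) = (u H : ℝ) - l H := by
    intro H
    rw [Int.card_Ioc]
    have : (((u H - l H).toNat : ℤ) : ℝ) = ((u H - l H : ℤ) : ℝ) := by
      rw [Int.toNat_of_nonneg (by linarith [h H])]
    push_cast at this
    exact_mod_cast this
  have h2 : Tendsto (fun H => 1 / ((u H : ℝ) - l H)) atTop (𝓝 0) := by
    exact hlim.inv_tendsto_atTop.congr fun H => by simp
  rw [tendsto_iff_norm_sub_tendsto_zero]
  refine squeeze_zero' (Eventually.of_forall fun H => norm_nonneg _) ?_ h2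
  filter_upwards [hlim.eventually_gt_atTop 0] with H hH
  rw [h1 H, Real.norm_eq_abs]
  have h3 := count_mod Q hQ (l H) (u H) (h H) w
  have h4 : (#{x ∈ Ioc (l H) (u H) | ((x : ℤ) : ZMod Q) = w} : ℝ) / ((u H : ℝ) - l H) - 1 / Q =
      ((#{x ∈ Ioc (l H) (u H) | ((x : ℤ) : ZMod Q) = w} : ℝ) - ((u H : ℝ) - l H) / Q) /
        ((u H : ℝ) - l H) := by
    field_simp
  rw [h4, abs_div, abs_of_pos hH]
  gcongr

variable {ι : Type*} [Fintype ι] [DecidableEq ι]

/-- the box -/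
noncomputable def box (l u : ι → ℕ → ℤ) (H : ℕ) : Finset (ι → ℤ) := Fintype.piFinset fun i => Ioc (l i H) (u i H)

theorem tendsto_box_mod (Q : ℕ) [NeZero Q] (l u : ι → ℕ → ℤ)
    (h : ∀ i H, l i H ≤ u i H)
    (hlim : ∀ i, Tendsto (fun H => ((u i H : ℝ) - l i H)) atTop atTop)
    (W : Finset (ι → ZMod Q)) :
    Tendsto (fun H => (#{z ∈ box l u H | (fun i => ((z i : ℤ) : ZMod Q)) ∈ W} : ℝ) /
      (#(box l u H) : ℝ)) atTop (𝓝 ((#W : ℝ) / (Q : ℝ) ^ Fintype.card ι)) := by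
  have hQ : 0 < Q := Nat.pos_of_ne_zero (NeZero.ne Q)
  have h1 : ∀ H, (#{z ∈ box l u H | (fun i => ((z i : ℤ) : ZMod Q)) ∈ W} : ℝ) /
      (#(box l u H) : ℝ) = ∑ w ∈ W, ∏ i, ((#{x ∈ Ioc (l i H) (u i H) | ((x : ℤ) : ZMod Q) = w i} : ℝ)
        / (#(Ioc (l i H) (u i H)) : ℝ)) := by
    intro H
    have h2 : #{z ∈ box l u H | (fun i => ((z i : ℤ) : ZMod Q)) ∈ W} =
        ∑ w ∈ W, ∏ i, #{x ∈ Ioc (l i H) (u i H) | ((x : ℤ) : ZMod Q) = w i} := by
      rw [Finset.card_eq_sum_card_fiberwise (f := fun z : ι → ℤ => fun i => ((z i : ℤ) : ZMod Q))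
        (t := W) (by intro z hz; exact (mem_filter.1 hz).2)]
      refine Finset.sum_congr rfl fun w hw => ?_
      rw [← Fintype.card_piFinset]
      congr 1
      ext z
      simp only [box, mem_filter, Fintype.mem_piFinset]
      constructor
      · rintro ⟨⟨h3, h4⟩, h5⟩ i
        exact ⟨h3 i, congrFun h5 i⟩
      · intro h3
        have h4 : (fun i => ((z i : ℤ) : ZMod Q)) = w := funext fun i => (h3 i).2
        exact ⟨⟨fun i => (h3 i).1, by rw [h4]; exact hw⟩, h4⟩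
    rw [h2, box, Fintype.card_piFinset]
    push_cast
    rw [Finset.sum_div]
    refine Finset.sum_congr rfl fun w _ => ?_
    rw [Finset.prod_div_distrib]
  simp_rw [h1]
  have h3 : ((#W : ℝ) / (Q : ℝ) ^ Fintype.card ι) = ∑ w ∈ W, ∏ i : ι, (1 / (Q : ℝ)) := by
    rw [Finset.sum_const, Finset.prod_const, nsmul_eq_mul, Finset.card_univ]
    rw [one_div, inv_pow]
    rfl
  rw [h3]
  refine tendsto_finsetSum _ fun w _ => tendsto_finsetProd _ fun i _ => ?_
  exact tendsto_count_mod Q hQ (l i) (u i) (h i) (hlim i) (w i)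

open Classical in
theorem tendsto_box_primes (l u : ι → ℕ → ℤ)
    (h : ∀ i H, l i H ≤ u i H)
    (hlim : ∀ i, Tendsto (fun H => ((u i H : ℝ) - l i H)) atTop atTop)
    (P : Finset ℕ) (hP : ∀ p ∈ P, p.Prime) (B : ∀ p : ℕ, Set (ι → ZMod p)) :
    Tendsto (fun H => (#{z ∈ box l u H | ∀ p ∈ P, (fun i => ((z i : ℤ) : ZMod p)) ∈ B p} : ℝ) /
      (#(box l u H) : ℝ)) atTop
        (𝓝 (∏ p ∈ P, (((B p).ncard : ℝ) / (p : ℝ) ^ Fintype.card ι))) := by
  set a : P → ℕ := fun p => (p : ℕ) with ha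
  have hcop : Pairwise (Function.onFun Nat.Coprime a) := by
    intro p q hpq
    exact (Nat.coprime_primes (hP _ p.2) (hP _ q.2)).2 fun h => hpq (Subtype.ext h)
  have hne : ∀ p : P, NeZero (a p) := fun p => ⟨(hP _ p.2).ne_zero⟩
  have hQne : NeZero (∏ p, a p) := ⟨Finset.prod_ne_zero_iff.2 fun p _ => (hP _ p.2).ne_zero⟩
  set e := ZMod.prodEquivPi a hcop with he
  set BB : ∀ p : P, Finset (ι → ZMod (a p)) := fun p => (Set.toFinite (B p)).toFinset with hBB
  set W : Finset (ι → ZMod (∏ p, a p)) :=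
    univ.filter (fun w => ∀ p : P, (fun i => e (w i) p) ∈ BB p) with hW
  have he' : ∀ (x : ℤ) (p : P), e (x : ZMod (∏ p, a p)) p = (x : ZMod (a p)) := by
    intro x p
    rw [map_intCast]
    rfl
  have hmem : ∀ z : ι → ℤ, (∀ p ∈ P, (fun i => ((z i : ℤ) : ZMod p)) ∈ B p) ↔
      (fun i => ((z i : ℤ) : ZMod (∏ p, a p))) ∈ W := by
    intro z
    rw [hW, mem_filter]
    simp only [mem_univ, true_and, hBB, Set.Finite.mem_toFinset, he']
    constructor
    · intro h1 p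
      exact h1 p p.2
    · intro h1 p hp
      exact h1 ⟨p, hp⟩
  have hcard : (#W : ℝ) / ((∏ p, a p : ℕ) : ℝ) ^ Fintype.card ι =
      ∏ p ∈ P, (((B p).ncard : ℝ) / (p : ℝ) ^ Fintype.card ι) := by
    have h1 : #W = ∏ p : P, (B p).ncard := by
      have h2 : #W = #(Fintype.piFinset BB) := by
        apply Finset.card_bij' (fun w _ => fun p i => e (w i) p)
          (fun v _ => fun i => e.symm (fun p => v p i))
        · intro w hw
          rw [Fintype.mem_piFinset]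
          exact (mem_filter.1 hw).2
        · intro v hv
          rw [Fintype.mem_piFinset] at hv
          rw [hW, mem_filter]
          refine ⟨mem_univ _, fun p => ?_⟩
          have : (fun i => e (e.symm (fun p => v p i)) p) = v p := by
            funext i
            rw [RingEquiv.apply_symm_apply]
          rw [this]
          exact hv p
        · intro w _
          funext i
          exact e.symm_apply_apply (w i)
        · intro v _
          funext p i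
          rw [RingEquiv.apply_symm_apply]
      rw [h2, Fintype.card_piFinset]
      refine Finset.prod_congr rfl fun p _ => ?_
      rw [hBB, Set.ncard_eq_toFinset_card _ (Set.toFinite (B p))]
    rw [h1, Finset.prod_div_distrib]
    push_cast
    rw [← Finset.prod_coe_sort P (fun p => ((B p).ncard : ℝ)), ← Finset.prod_pow,
      ← Finset.prod_coe_sort P (fun p => (p : ℝ) ^ Fintype.card ι)]
  rw [← hcard]
  have := tendsto_box_mod (∏ p, a p) l u h hlim W
  refine this.congr fun H => ?_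
  congr 2
  exact_mod_cast congrArg Finset.card (Finset.filter_congr fun z _ => (hmem z).symm)

end Pool.Agent.X23.BR
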