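import Pool.Agent.X23.BR.Nonzero
import Pool.Agent.X23.BR.Sieve
import Pool.Agent.X23.BR.Bounds

/-!
# The tail of the sieve
-/

set_option autoImplicit false

namespace Pool.Agent.X23.BR

open Finset Filter Topology

section general

variable {ι : Type*} [Fintype ι] [DecidableEq ι]

theorem card_box_mod_le (Q : ℕ) [NeZero Q] (l u : ι → ℕ → ℤ) (H : ℕ)
    (h : ∀ i, l i H ≤ u i H) (M : ℝ) (hM : ∀ i, ((u i H : ℝ) - l i H) ≤ M)
    (W : Finset (ι → ZMod Q)) :
    (#{z ∈ box l u H | (fun i => ((z i : ℤ) : ZMod Q)) ∈ W} : ℝ) ≤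
      (#W : ℝ) * (M / Q + 1) ^ Fintype.card ι := by
  have hQ : 0 < Q := Nat.pos_of_ne_zero (NeZero.ne Q)
  have h2 : #{z ∈ box l u H | (fun i => ((z i : ℤ) : ZMod Q)) ∈ W} =
      ∑ w ∈ W, ∏ i, #{x ∈ Ioc (l i H) (u i H) | ((x : ℤ) : ZMod Q) = w i} := by
    rw [Finset.card_eq_sum_card_fiberwise (f := fun z : ι → ℤ => fun i => ((z i : ℤ) : ZMod Q))
      (t := W) (by intro z hz; exact (mem_filter.1 hz).2)]
    refine Finset.sum_congr rfl fun w hw => ?_
    rw [← Fintype.card_piFinset]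
    congr 1
    ext z
    simp only [box, mem_filter, Fintype.mem_piFinset]
    constructor
    · rintro ⟨⟨h3, h4⟩, h5⟩ i
      exact ⟨h3 i, congrFun h5 i⟩
    · intro h3
      have h4 : (fun i => ((z i : ℤ) : ZMod Q)) = w := funext fun i => (h3 i).2
      exact ⟨⟨fun i => (h3 i).1, by rw [h4]; exact hw⟩, h4⟩
  rw [h2]
  push_cast
  have h3 : ∀ w ∈ W, ∏ i, (#{x ∈ Ioc (l i H) (u i H) | ((x : ℤ) : ZMod Q) = w i} : ℝ) ≤
      (M / Q + 1) ^ Fintype.card ι := by
    intro w _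
    rw [← Finset.card_univ, ← Finset.prod_const]
    refine Finset.prod_le_prod (fun i _ => by positivity) fun i _ => ?_
    have h4 := (abs_le.1 (count_mod Q hQ (l i H) (u i H) (h i) (w i))).2
    have h5 : ((u i H : ℝ) - l i H) / Q ≤ M / Q := by
      gcongr
      exact hM i
    linarith
  calc _ ≤ ∑ w ∈ W, (M / Q + 1) ^ Fintype.card ι := Finset.sum_le_sum h3
    _ = _ := by rw [Finset.sum_const, nsmul_eq_mul]

end general

variable {m n : ℕ}

/-- lower ends -/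
def lo (m n : ℕ) (i : Idx m n) (H : ℕ) : ℤ :=
  if i = Sum.inl (Fin.last m) ∨ i = Sum.inr (Fin.last n) then 0 else -H - 1

/-- upper ends -/
def hi (m n : ℕ) (_ : Idx m n) (H : ℕ) : ℤ := H

/-- the box of coefficients -/
noncomputable def Bx (m n H : ℕ) : Finset (Idx m n → ℤ) := box (lo m n) (hi m n) H

theorem lo_le_hi (i : Idx m n) (H : ℕ) : lo m n i H ≤ hi m n i H := by
  unfold lo hi
  split_ifs <;> omega

theorem hi_sub_lo_le (i : Idx m n) (H : ℕ) : ((hi m n i H : ℝ) - lo m n i H) ≤ 2 * H + 1 := by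
  have : hi m n i H - lo m n i H ≤ 2 * H + 1 := by
    unfold lo hi
    split_ifs <;> omega
  exact_mod_cast this

theorem le_hi_sub_lo (i : Idx m n) (H : ℕ) : (H : ℝ) ≤ ((hi m n i H : ℝ) - lo m n i H) := by
  have : (H : ℤ) ≤ hi m n i H - lo m n i H := by
    unfold lo hi
    split_ifs <;> omega
  exact_mod_cast this

theorem mem_Bx {H : ℕ} {z : Idx m n → ℤ} (hz : z ∈ Bx m n H) :
    0 < z (Sum.inl (Fin.last m)) ∧ 0 < z (Sum.inr (Fin.last n)) ∧ ∀ i, z i ∈ Icc (-(H : ℤ)) H := by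
  have h1 : ∀ i, z i ∈ Ioc (lo m n i H) (hi m n i H) := Fintype.mem_piFinset.1 hz
  refine ⟨?_, ?_, fun i => ?_⟩
  · have := (mem_Ioc.1 (h1 (Sum.inl (Fin.last m)))).1
    simpa [lo] using this
  · have := (mem_Ioc.1 (h1 (Sum.inr (Fin.last n)))).1
    simpa [lo] using this
  · have h2 := mem_Ioc.1 (h1 i)
    rw [mem_Icc]
    unfold lo hi at h2
    split_ifs at h2 <;> omega

theorem mem_Bx_iff {H : ℕ} {z : Idx m n → ℤ} : z ∈ Bx m n H ↔
    0 < z (Sum.inl (Fin.last m)) ∧ 0 < z (Sum.inr (Fin.last n)) ∧ ∀ i, z i ∈ Icc (-(H : ℤ)) H := by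
  refine ⟨mem_Bx, fun ⟨h1, h2, h3⟩ => Fintype.mem_piFinset.2 fun i => ?_⟩
  rw [mem_Ioc]
  have h4 := mem_Icc.1 (h3 i)
  unfold lo hi
  split_ifs with h5
  · rcases h5 with h5 | h5 <;> subst h5 <;> exact ⟨by assumption, h4.2⟩
  · omega

theorem card_Idx : Fintype.card (Idx m n) = m + n + 2 := by
  rw [Fintype.card_sum, Fintype.card_fin, Fintype.card_fin]
  ring

theorem card_Bx_ge (H : ℕ) : (H : ℝ) ^ (m + n + 2) ≤ #(Bx m n H) := by
  have h1 : #(Bx m n H) = ∏ i, #(Ioc (lo m n i H) (hi m n i H)) := Fintype.card_piFinset _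
  rw [h1]
  push_cast
  rw [← card_Idx (m := m) (n := n), ← Finset.card_univ, ← Finset.prod_const]
  refine Finset.prod_le_prod (fun i _ => by positivity) fun i _ => ?_
  rw [Int.card_Ioc]
  have h2 := lo_le_hi (m := m) (n := n) i H
  have h3 : (((hi m n i H - lo m n i H).toNat : ℤ) : ℝ) =
      ((hi m n i H - lo m n i H : ℤ) : ℝ) := by
    rw [Int.toNat_of_nonneg (by linarith)]
  have h4 := le_hi_sub_lo (m := m) (n := n) i H
  push_cast at h3
  have h5 : (((hi m n i H - lo m n i H).toNat : ℕ) : ℝ) = (hi m n i H : ℝ) - lo m n i H := by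
    exact_mod_cast h3
  rw [h5]
  exact h4

open Classical in
/-- Middle primes -/
theorem card_middle (hm : 2 ≤ m) (hn : 2 ≤ n) (h : 0 < m + n) (H p : ℕ) (hp : p.Prime)
    (hpH : p ≤ H) :
    (#{z ∈ Bx m n H | ∀ j, (p : ℤ) ∣ wv h z j} : ℝ) ≤
      2 * (4 * (H : ℝ)) ^ (m + n + 2) / (p : ℝ) ^ 2 := by
  haveI := Fact.mk hp
  have hH : 1 ≤ H := hp.one_lt.le.trans hpH
  have hp0 : (0 : ℝ) < p := by exact_mod_cast hp.pos
  set W : Finset (Idx m n → ZMod p) := univ.filter (fun w => ∀ j, wv h w j = 0) with hW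
  have hWc : (#W : ℝ) ≤ 2 * (p : ℝ) ^ (m + n) := by
    have h1 := card_goodvec (K := ZMod p) hm hn h
    rw [ZMod.card] at h1
    have h2 : ({w : Idx m n → ZMod p | ∃ j, wv h w j ≠ 0} : Set (Idx m n → ZMod p)).ncard =
        #(univ.filter (fun w : Idx m n → ZMod p => ¬ ∀ j, wv h w j = 0)) := by
      rw [← Set.ncard_coe_finset]
      congr 1
      ext w
      simp
    have h3 := Finset.card_filter_add_card_filter_not (s := (univ : Finset (Idx m n → ZMod p)))
      (fun w : Idx m n → ZMod p => ∀ j, wv h w j = 0)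
    rw [← h2] at h3
    have h4 : #(univ : Finset (Idx m n → ZMod p)) = p ^ (m + n + 2) := by
      rw [Finset.card_univ, Fintype.card_fun, ZMod.card, card_Idx]
    rw [h4] at h3
    have h5 : #W ≤ 2 * p ^ (m + n) := by
      have : #W = #(univ.filter (fun w : Idx m n → ZMod p => ∀ j, wv h w j = 0)) := rfl
      omega
    exact_mod_cast h5
  have h1 : (#{z ∈ Bx m n H | ∀ j, (p : ℤ) ∣ wv h z j} : ℝ) =
      #{z ∈ box (lo m n) (hi m n) H | (fun i => ((z i : ℤ) : ZMod p)) ∈ W} := by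
    congr 2
    ext z
    rw [mem_filter, mem_filter, hW, mem_filter]
    simp only [mem_univ, true_and]
    refine and_congr Iff.rfl (forall_congr' fun j => ?_)
    have h2 := wv_map (Int.castRingHom (ZMod p)) h z j
    simp only [eq_intCast] at h2
    rw [h2, ZMod.intCast_zmod_eq_zero_iff_dvd]
  rw [h1]
  have h2 := card_box_mod_le p (lo m n) (hi m n) H (fun i => lo_le_hi i H) (2 * H + 1)
    (fun i => hi_sub_lo_le i H) W
  rw [card_Idx] at h2
  have h3 : (2 * (H : ℝ) + 1) / p + 1 ≤ 4 * H / p := by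
    rw [div_add_one hp0.ne']
    gcongr
    have e1 : (p : ℝ) ≤ H := by exact_mod_cast hpH
    have e2 : (1 : ℝ) ≤ H := by exact_mod_cast hH
    linarith
  calc _ ≤ _ := h2
    _ ≤ (2 * (p : ℝ) ^ (m + n)) * (4 * H / p) ^ (m + n + 2) := by gcongr
    _ = 2 * (4 * (H : ℝ)) ^ (m + n + 2) / (p : ℝ) ^ 2 := by
        rw [div_pow, pow_add (p : ℝ) (m + n) 2]
        field_simp

end Pool.Agent.X23.BR
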