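import Pool.Agent.X23.BR.Count

/-!
# Coefficient vectors
-/

set_option autoImplicit false

namespace Pool.Agent.X23.BR

open Polynomial Matrix Finset

/-- the coefficients of a pair of polynomials of degrees at most `m` and `n` -/
abbrev Idx (m n : ℕ) := Fin (m + 1) ⊕ Fin (n + 1)

section ring

variable {S : Type*} [CommRing S] {m n : ℕ}

noncomputable def poly (k : ℕ) (c : Fin (k + 1) → S) : S[X] :=
  ∑ i : Fin (k + 1), C (c i) * X ^ (i : ℕ)

theorem coeff_poly (k : ℕ) (c : Fin (k + 1) → S) (i : Fin (k + 1)) : (poly k c).coeff i = c i := by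
  unfold poly
  rw [finset_sum_coeff, Finset.sum_eq_single i]
  · simp
  · intro b _ hb
    rw [coeff_C_mul, coeff_X_pow, if_neg (fun h => hb (Fin.ext h.symm)), mul_zero]
  · simp

theorem natDegree_poly (k : ℕ) (c : Fin (k + 1) → S) : (poly k c).natDegree ≤ k := by
  unfold poly
  refine natDegree_sum_le_of_forall_le _ _ fun i _ => ?_
  exact (natDegree_C_mul_X_pow_le _ _).trans (by omega)

theorem poly_coeff {k : ℕ} {f : S[X]} (hf : f.natDegree ≤ k) :
    poly k (fun i => f.coeff i) = f := by
  ext i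
  by_cases hi : i < k + 1
  · exact coeff_poly k _ ⟨i, hi⟩
  · rw [coeff_eq_zero_of_natDegree_lt, coeff_eq_zero_of_natDegree_lt]
    · omega
    · exact (natDegree_poly _ _).trans_lt (by omega)

theorem poly_map {S' : Type*} [CommRing S'] (φ : S →+* S') (k : ℕ) (c : Fin (k + 1) → S) :
    (poly k c).map φ = poly k (fun i => φ (c i)) := by
  unfold poly
  rw [Polynomial.map_sum]
  refine Finset.sum_congr rfl fun i _ => ?_
  simp

/-- the first polynomial -/
noncomputable def FF (z : Idx m n → S) : S[X] := poly m (fun i => z (Sum.inl i))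

/-- the second polynomial -/
noncomputable def GG (z : Idx m n → S) : S[X] := poly n (fun i => z (Sum.inr i))

theorem natDegree_FF (z : Idx m n → S) : (FF z).natDegree ≤ m := natDegree_poly _ _

theorem natDegree_GG (z : Idx m n → S) : (GG z).natDegree ≤ n := natDegree_poly _ _

theorem FF_map {S' : Type*} [CommRing S'] (φ : S →+* S') (z : Idx m n → S) :
    (FF z).map φ = FF (fun i => φ (z i)) := poly_map _ _ _

theorem GG_map {S' : Type*} [CommRing S'] (φ : S →+* S') (z : Idx m n → S) :
    (GG z).map φ = GG (fun i => φ (z i)) := poly_map _ _ _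

theorem coeff_FF_top (z : Idx m n → S) : (FF z).coeff m = z (Sum.inl (Fin.last m)) :=
  coeff_poly m _ (Fin.last m)

theorem coeff_GG_top (z : Idx m n → S) : (GG z).coeff n = z (Sum.inr (Fin.last n)) :=
  coeff_poly n _ (Fin.last n)

/-- the vector of coefficients -/
def vecFG (m n : ℕ) (x : S[X] × S[X]) : Idx m n → S :=
  Sum.elim (fun i => x.1.coeff i) (fun i => x.2.coeff i)

theorem FF_vecFG {x : S[X] × S[X]} (h : x.1.natDegree ≤ m) : FF (vecFG m n x) = x.1 :=
  poly_coeff h

theorem GG_vecFG {x : S[X] × S[X]} (h : x.2.natDegree ≤ n) : GG (vecFG m n x) = x.2 :=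
  poly_coeff h

theorem vecFG_FG (z : Idx m n → S) : vecFG m n (FF z, GG z) = z := by
  funext i
  rcases i with i | i
  · exact coeff_poly m _ i
  · exact coeff_poly n _ i

/-- the column of the adjugate -/
noncomputable def wv (h : 0 < m + n) (z : Idx m n → S) (j : Fin (m + n)) : S :=
  vv (FF z) (GG z) m n h j

/-- the resultant -/
noncomputable def rs (z : Idx m n → S) : S := resultant (FF z) (GG z) m n

theorem wv_map {S' : Type*} [CommRing S'] (φ : S →+* S') (h : 0 < m + n) (z : Idx m n → S)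
    (j : Fin (m + n)) : wv h (fun i => φ (z i)) j = φ (wv h z j) := by
  unfold wv
  rw [← FF_map, ← GG_map, vv_map]

theorem rs_map {S' : Type*} [CommRing S'] (φ : S →+* S') (z : Idx m n → S) :
    rs (fun i => φ (z i)) = φ (rs z) := by
  unfold rs
  rw [← FF_map, ← GG_map, resultant_map_map]

theorem dvd_rs (h : 0 < m + n) (z : Idx m n → ℤ) (p : ℤ) (hp : ∀ j, p ∣ wv h z j) : p ∣ rs z := by
  have hb := bezout_vv (FF z) (GG z) (natDegree_FF z) (natDegree_GG z) h
  have hq : C p ∣ qX (vv (FF z) (GG z) m n h) := by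
    unfold qX
    refine Finset.dvd_sum fun b _ => Dvd.dvd.mul_right ?_ _
    exact map_dvd C (hp _)
  have hp' : C p ∣ pX (vv (FF z) (GG z) m n h) := by
    unfold pX
    refine Finset.dvd_sum fun b _ => Dvd.dvd.mul_right ?_ _
    exact map_dvd C (hp _)
  have h1 : C p ∣ C (resultant (FF z) (GG z) m n) := by
    rw [← hb]
    exact dvd_add (hq.mul_left _) (hp'.mul_left _)
  have h2 := (C_dvd_iff_dvd_coeff _ _).1 h1 0
  rwa [coeff_C_zero] at h2

end ring

section field

variable {K : Type*} [Field K] {m n : ℕ}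

theorem card_goodvec [Fintype K] (hm : 2 ≤ m) (hn : 2 ≤ n) (h : 0 < m + n) :
    ({w : Idx m n → K | ∃ j, wv h w j ≠ 0} : Set (Idx m n → K)).ncard +
      2 * Fintype.card K ^ (m + n) =
      Fintype.card K ^ (m + n + 2) + Fintype.card K ^ (m + n - 2) := by
  rw [← ncard_gs (K := K) m n hm hn]
  congr 1
  apply Set.ncard_congr (fun w _ => (FF w, GG w))
  · intro w hw
    exact ⟨natDegree_FF w, natDegree_GG w,
      (good_iff (by omega) (by omega) (natDegree_FF w) (natDegree_GG w) h).1 hw⟩
  · intro w w' _ _ he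
    rw [← vecFG_FG w, ← vecFG_FG w', he]
  · intro x hx
    have e1 : FF (vecFG m n x) = x.1 := FF_vecFG hx.1
    have e2 : GG (vecFG m n x) = x.2 := GG_vecFG hx.2.1
    refine ⟨vecFG m n x, ?_, ?_⟩
    · change ∃ j, vv (FF (vecFG m n x)) (GG (vecFG m n x)) m n h j ≠ 0
      rw [e1, e2]
      exact (good_iff (by omega) (by omega) hx.1 hx.2.1 h).2 hx.2.2
    · rw [e1, e2]

end field

end Pool.Agent.X23.BR
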